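import Pool.Agent.Helper79.Kurepa.Pos

/-!
# A regular cardinal with `2^{<κ} < 2^κ`, and Cohen conditions
-/

namespace Pool.Agent.Helper79.Game

open Pool.Agent.Helper79.ZF Pool.Agent.Helper79.Kurepa

section
variable {M : Type} [Membership M M] [ZFCM M]
variable {α β γ : Type} [Ctx M α] [Ctx M β] [Ctx M γ]

/-- the power set of a union -/
theorem pow_union_le {I W : M} {F : M → M} (hF : DefF M F) (h : ∀ i : M, i ∈ I → Le (pow (F i)) (pow W)) :
    Le (pow (sU (repS I F))) (pow (prodS I W)) := by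
  obtain ⟨f, hf, h1⟩ := choice (R := fun i f => (∀ x : M, x ∈ pow (F i) → ∃ y : M, y ∈ pow W ∧ opair x y ∈ f) ∧
    (∀ x y z : M, opair x y ∈ f → opair x z ∈ f → y = z) ∧
    (∀ x y z : M, opair x z ∈ f → opair y z ∈ f → x = y)) (by fun_prop) I (fun i hi => le_iff.1 (h i hi))
  have happ : ∀ i x : M, i ∈ I → x ∈ pow (F i) → app (f i) x ∈ pow W ∧ opair x (app (f i) x) ∈ f i := by
    intro i x hi hx
    obtain ⟨h3, h4, h5⟩ := h1 i hi
    obtain ⟨y, hy, hy'⟩ := h3 x hx
    have : app (f i) x = y := app_eq hy' (fun y' h' => h4 _ _ _ h' hy')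
    rw [this]; exact ⟨hy, hy'⟩
  have hcap : ∀ X i : M, capS X (F i) ∈ pow (F i) := fun X i => capS_mem_pow' _ _
  refine Le.of (fun X => sepS (prodS I W) (fun z => snd z ∈ app (f (fst z)) (capS X (F (fst z))))) (by fun_prop) ?_ ?_
  · intro X _
    rw [mem_pow]
    intro z hz
    exact ((mem_sepS (by fun_prop)).1 hz).1
  · intro X Y hX hY hXY
    have key : ∀ i : M, i ∈ I → capS X (F i) = capS Y (F i) := by
      intro i hi
      have h2 := happ i _ hi (hcap X i)
      have h3 := happ i _ hi (hcap Y i)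
      have h4 : app (f i) (capS X (F i)) = app (f i) (capS Y (F i)) := by
        apply ext'
        intro w
        have hX' : ∀ X : M, app (f i) (capS X (F i)) ∈ pow W → (w ∈ app (f i) (capS X (F i)) ↔
            opair i w ∈ sepS (prodS I W) (fun z => snd z ∈ app (f (fst z)) (capS X (F (fst z))))) := by
          intro X hX
          rw [mem_sepS (by fun_prop), opair_mem_prodS, fst_opair, snd_opair]
          exact ⟨fun h => ⟨⟨hi, mem_pow.1 hX w h⟩, h⟩, fun h => h.2⟩
        rw [hX' X h2.1, hX' Y h3.1, hXY]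
      rw [h4] at h2
      exact (h1 i hi).2.2 _ _ _ h2.2 h3.2
    have hsub : ∀ X Y : M, X ∈ pow (sU (repS I F)) → (∀ i : M, i ∈ I → capS X (F i) = capS Y (F i)) → ∀ z : M, z ∈ X → z ∈ Y := by
      intro X Y hX h z hz
      obtain ⟨w, hw, hzw⟩ := mem_sU.1 (mem_pow.1 hX z hz)
      obtain ⟨i, hi, rfl⟩ := (mem_repS hF).1 hw
      have h5 : z ∈ capS X (F i) := mem_capS.2 ⟨hz, hzw⟩
      rw [h i hi] at h5
      exact (mem_capS.1 h5).1
    exact ext' (fun z => ⟨hsub X Y hX key z, hsub Y X hY (fun i hi => (key i hi).symm) z⟩)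

/-- a regular uncountable cardinal `κ ≤ 2^ω` such that `2^x ≤ 2^ω` for `|x| < κ` and not `2^κ ≤ 2^ω` -/
structure IsK (κ : M) : Prop where
  reg : IsReg κ
  unc : om M ∈ κ
  small : ∀ A : M, ¬ Le κ A → Le (pow A) (pow (om M))
  le : Le κ (pow (om M))
  big : ¬ Le (pow κ) (pow (om M))

theorem exists_K : ∃ κ : M, IsK κ := by
  let Φ : M → Prop := fun x => ¬ Le (pow (prodS x (om M))) (pow (om M))
  have hΦ : DefP M Φ := by simp only [Φ]; fun_prop
  have hmono : ∀ x y : M, Le x y → Φ x → Φ y := fun x y h hx hy => hx ((le_pow (le_prod h (Le.refl _))).trans hy)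
  have hself : ∀ x : M, Le x (prodS x (om M)) := fun x =>
    Le.of (fun z => opair z emp) (by fun_prop) (fun z hz => opair_mem_prodS.2 ⟨hz, zero_mem_om⟩)
      (fun z w _ _ h => (opair_inj.1 h).1)
  have hom : ¬ Φ (om M) := fun h => h (le_pow (le_sq (Le.refl _)))
  obtain ⟨x0, hx0, h1, _⟩ := exists_card (pow (pow (om M)))
  have h0 : Φ x0 := by
    intro h
    apply cantor (pow (om M))
    exact h1.trans ((hself x0).trans ((le_pow_self _).trans h))
  obtain ⟨κ, hκ, hκΦ, hκmin⟩ := ord_least hΦ hx0.1 h0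
  have hmin : ∀ y : M, y ∈ κ → ¬ Φ y := hκmin.1
  have hunc : om M ∈ κ := by
    rcases ord_cases ord_om hκ with h | h
    · exact h
    · exact absurd (hmono _ _ (Le.of_sub h) hκΦ) hom
  have hinit : ∀ x : M, x ∈ κ → ¬ Le κ x := fun x hx h => hmin x hx (hmono _ _ h hκΦ)
  have hcard : IsCard κ := ⟨hκ, hinit⟩
  have hsub : MSub (om M) κ := ord_sub hκ hunc
  have hreg : IsReg κ := by
    refine ⟨hκ, hsub _ zero_mem_om, fun x hx => card_succ hcard hsub hx, hinit, fun S hS h => ?_⟩
    by_contra hcon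
    obtain ⟨y, hy, _, h3, _⟩ := exists_mem_le hκ hcon
    apply hκΦ
    have h4 := pow_union_le (I := S) (W := om M) (F := fun s => prodS s (om M)) (by fun_prop) (fun s hs => by
      have := hmin s (hS s hs)
      simp only [Φ, not_not] at this
      exact this)
    have h5 := hmin y hy
    simp only [Φ, not_not] at h5
    refine (le_pow (Le.of_sub (fun z hz => ?_))).trans (h4.trans ((le_pow (le_prod h3 (Le.refl _))).trans h5))
    obtain ⟨a, n, ha, hn, rfl⟩ := mem_prodS.1 hz
    obtain ⟨s, hs, has⟩ := h a ha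
    exact mem_sU.2 ⟨_, (mem_repS (by fun_prop)).2 ⟨s, hs, rfl⟩, opair_mem_prodS.2 ⟨has, hn⟩⟩
  have hsmall : ∀ A : M, ¬ Le κ A → Le (pow A) (pow (om M)) := by
    intro A hA
    obtain ⟨y, hy, _, h3, _⟩ := exists_mem_le hκ hA
    have h5 := hmin y hy
    simp only [Φ, not_not] at h5
    exact (le_pow (h3.trans (hself y))).trans h5
  refine ⟨κ, hreg, hunc, hsmall, ?_, fun h => ?_⟩
  · by_contra h
    exact cantor _ (hsmall _ h)
  · exact hκΦ ((le_pow (prod_le (Le.of_sub hsub) (Le.refl κ) (Le.of_sub hsub))).trans h)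

theorem pow_nat_le {n : M} (hn : n ∈ om M) : Le (pow n) (om M) := by
  refine om_induction (R := fun n => Le (pow n) (om M)) (by fun_prop) ?_ ?_ hn
  · refine Le.of (fun _ => emp) (by fun_prop) (fun _ _ => zero_mem_om) (fun x y hx hy _ => ?_)
    rw [mem_pow] at hx hy
    exact ext' (fun z => ⟨fun h => absurd (hx z h) (not_mem_emp z), fun h => absurd (hy z h) (not_mem_emp z)⟩)
  · intro n hn ih
    classical
    refine Le.trans (B := prodS (pow n) (om M)) ?_ (prod_le (Le.refl _) ih (Le.refl _))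
    refine Le.of (fun x => opair (capS x n) (if n ∈ x then suc emp else emp)) (by
      have : DefF M (fun x : M => if n ∈ x then suc (emp : M) else emp) :=
        DefF.cond (R := fun x => n ∈ x) (by fun_prop) (DefF_const _) (DefF_const _)
      fun_prop) (fun x _ => ?_) (fun x y hx hy hxy => ?_)
    · rw [opair_mem_prodS]
      refine ⟨capS_mem_pow' _ _, ?_⟩
      split_ifs
      · exact suc_mem_om zero_mem_om
      · exact zero_mem_om
    · rw [opair_inj] at hxy
      have hn' : n ∈ x ↔ n ∈ y := by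
        have := hxy.2
        split_ifs at this with h1 h2 h2
        · exact ⟨fun _ => h2, fun _ => h1⟩
        · exact absurd this (suc_ne_emp _)
        · exact absurd this.symm (suc_ne_emp _)
        · exact ⟨fun h => absurd h h1, fun h => absurd h h2⟩
      rw [mem_pow] at hx hy
      have key : ∀ x y : M, (∀ z : M, z ∈ x → z ∈ suc n) → capS x n = capS y n → (n ∈ x ↔ n ∈ y) → ∀ z : M, z ∈ x → z ∈ y := by
        intro x y hx h1 h2 z hz
        rcases mem_suc.1 (hx z hz) with h3 | h3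
        · have : z ∈ capS x n := mem_capS.2 ⟨hz, h3⟩
          rw [h1] at this
          exact (mem_capS.1 this).1
        · rw [h3] at hz ⊢; exact h2.1 hz
      exact ext' (fun z => ⟨key x y hx hxy.1 hn' z, key y x hy hxy.1.symm hn'.symm z⟩)

/-- the set of finite subsets of a countable set is countable -/
theorem fin_countable {Z : M} (hZ : Le Z (om M)) : Le (sepS (pow Z) (fun c => ¬ Le (om M) c)) (om M) := by
  obtain ⟨f, hf, h1, h2⟩ := hZ.fn
  have hcov : ∀ c : M, c ∈ sepS (pow Z) (fun c => ¬ Le (om M) c) → ∃ n : M, n ∈ om M ∧ c ∈ sepS (pow Z) (fun c => ∀ x : M, x ∈ c → f x ∈ n) := by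
    intro c hc
    rw [mem_sepS (by fun_prop), mem_pow] at hc
    have h3 : MSub (repS c f) (om M) := by
      intro z hz
      obtain ⟨x, hx, rfl⟩ := (mem_repS hf).1 hz
      exact h1 x (hc.1 x hx)
    have h4 : ¬ Le (om M) (repS c f) := fun h => hc.2 (h.trans (le_repS hf))
    obtain ⟨n, hn, _, h5, _⟩ := exists_mem_le ord_om h4
    obtain ⟨b, hb, hb'⟩ := finite_bdd hn _ h3 h5
    refine ⟨b, hb, ?_⟩
    rw [mem_sepS (by fun_prop), mem_pow]
    exact ⟨hc.1, fun x hx => hb' _ ((mem_repS hf).2 ⟨x, hx, rfl⟩)⟩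
  have hfn : ∀ n : M, n ∈ om M → Le (sepS (pow Z) (fun c => ∀ x : M, x ∈ c → f x ∈ n)) (om M) := by
    intro n hn
    refine Le.trans (B := pow n) (Le.of (fun c => repS c f) (by fun_prop) (fun c hc => ?_) (fun c d hc hd hcd => ?_)) (pow_nat_le hn)
    · rw [mem_sepS (by fun_prop)] at hc
      rw [mem_pow]
      intro z hz
      obtain ⟨x, hx, rfl⟩ := (mem_repS hf).1 hz
      exact hc.2 x hx
    · rw [mem_sepS (by fun_prop), mem_pow] at hc hd
      have key : ∀ c d : M, (∀ w : M, w ∈ c → w ∈ Z) → (∀ w : M, w ∈ d → w ∈ Z) → repS c f = repS d f → ∀ z : M, z ∈ c → z ∈ d := by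
        intro c d hc hd h z hz
        have : f z ∈ repS c f := (mem_repS hf).2 ⟨z, hz, rfl⟩
        rw [h] at this
        obtain ⟨w, hw, hwz⟩ := (mem_repS hf).1 this
        rw [h2 z w (hc z hz) (hd w hw) hwz]; exact hw
      exact ext' (fun z => ⟨key c d hc.1 hd.1 hcd z, key d c hd.1 hc.1 hcd.symm z⟩)
  refine (Le.of_sub (fun c hc => ?_)).trans (union_le (I := om M)
    (F := fun n => sepS (pow Z) (fun c => ∀ x : M, x ∈ c → f x ∈ n)) (by fun_prop) (Le.refl _) (Le.refl _) hfn)
  obtain ⟨n, hn, h⟩ := hcov c hc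
  exact mem_sU.2 ⟨_, (mem_repS (by fun_prop)).2 ⟨n, hn, rfl⟩, h⟩

variable (M) in
/-- the set of Cohen conditions -/
noncomputable def Co : M := Lv (om M) (om M)

theorem Co_le : Le (Co M) (om M) := by
  refine (Le.of_sub (fun c hc => ?_)).trans (fin_countable (Z := prodS (prodS (om M) (om M)) (om M))
    (prod_le (Le.refl _) (le_sq (Le.refl _)) (Le.refl _)))
  rw [mem_sepS (by fun_prop), mem_pow]
  unfold Co at hc
  rw [mem_Lv] at hc
  refine ⟨fun z hz => ?_, hc.2.2.2⟩
  obtain ⟨x, i, y, hx, hi, hy, rfl⟩ := hc.1 z hz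
  exact opair_mem_prodS.2 ⟨opair_mem_prodS.2 ⟨hx, hi⟩, hy⟩

end

end Pool.Agent.Helper79.Game
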