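import Pool.Agent.Helper79.Game.Basic
import Pool.Agent.Helper79.Game.Kappa

/-!
# Generic extensions by countable posets
-/

namespace Pool.Agent.Helper79.Game

open Pool.Agent.Helper79.ZF Pool.Agent.Helper79.Kurepa

section
variable {M N : Type} [Membership M M] [Membership N N] [ZFCM M] [ZFCM N] {P R : M} (g : GenExt M N P R)

include g

/-- names as sets -/
theorem name_set (t : N) (A : M) : ∃ τ : M, (∀ z a : M, opair z a ∈ τ → z ∈ prodS P R ∧ a ∈ A) ∧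
    ∀ a : M, a ∈ A → (g.j a ∈ t ↔ ∃ z : M, g.j z ∈ g.G ∧ opair z a ∈ τ) := by
  obtain ⟨ρ, hρ, h⟩ := g.name t
  have hd : DefP M (fun w : M => ρ (fst (fst w)) (snd (fst w)) (snd w)) :=
    DefP_comp (R := fun t : M × (M × M) => ρ t.1 t.2.1 t.2.2) hρ.df (f := fun w : M => (fst (fst w), (snd (fst w), snd w))) (by fun_prop)
  refine ⟨sepS (prodS (prodS P R) A) (fun w => ρ (fst (fst w)) (snd (fst w)) (snd w)), ?_, ?_⟩
  · intro z a hza
    exact opair_mem_prodS.1 ((mem_sepS hd).1 hza).1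
  · intro a ha
    rw [h]
    constructor
    · rintro ⟨p, r, h1, h2⟩
      refine ⟨opair p r, h1, (mem_sepS hd).2 ⟨?_, ?_⟩⟩
      · simp only [opair_mem_prodS]; exact ⟨g.G_mem h1, ha⟩
      · simp only [fst_opair, snd_opair]; exact h2
    · rintro ⟨z, h1, h2⟩
      obtain ⟨p, r, _, _, h3⟩ := g.G_sub _ h1
      have := g.inj h3
      subst this
      refine ⟨p, r, h1, ?_⟩
      have := ((mem_sepS hd).1 h2).2
      simp only [fst_opair, snd_opair] at this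
      exact this

/-- the range of a functional relation of the extension is covered by a small set of the ground model -/
theorem cover_small {A C : M} {t : N} (ht : ∀ a b b' : N, opair a b ∈ t → opair a b' ∈ t → b = b') :
    ∃ T : M, MSub T C ∧ Le T (prodS (prodS P R) A) ∧ ∀ a b : N, a ∈ g.j A → b ∈ g.j C → opair a b ∈ t → b ∈ g.j T := by
  obtain ⟨τ, h1, h2⟩ := name_set g t (prodS A C)
  let gd : M → Prop := fun z => ∀ a c c' : M, opair z (opair a c) ∈ τ → opair z (opair a c') ∈ τ → c = c'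
  have hgd : DefP M gd := by simp only [gd]; fun_prop
  refine ⟨sepS C (fun c => ∃ z : M, gd z ∧ ∃ a : M, opair z (opair a c) ∈ τ), ?_, ?_, ?_⟩
  · intro c hc
    exact ((mem_sepS (by fun_prop)).1 hc).1
  · apply le_image (F := fun w => theD (fun c => opair (fst w) (opair (snd w) c) ∈ τ)) (by fun_prop)
    intro c hc
    obtain ⟨_, z, hz, a, h3⟩ := (mem_sepS (by fun_prop)).1 hc
    have h4 := h1 _ _ h3
    rw [opair_mem_prodS] at h4
    refine ⟨opair z a, opair_mem_prodS.2 ⟨h4.1, h4.2.1⟩, ?_⟩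
    rw [fst_opair, snd_opair]
    exact theD_eq (R := fun c => opair z (opair a c) ∈ τ) h3 (fun c' hc' => hz _ _ _ hc' h3)
  · intro a b ha hb hab
    obtain ⟨a, ha', rfl⟩ := g.mem_j.1 ha
    obtain ⟨b, hb', rfl⟩ := g.mem_j.1 hb
    rw [g.j_mem_j, mem_sepS (by fun_prop)]
    have h3 := hab
    rw [← g.j_opair, h2 _ (opair_mem_prodS.2 ⟨ha', hb'⟩)] at h3
    obtain ⟨z, hz, hz'⟩ := h3
    refine ⟨hb', z, fun u c c' h4 h5 => ?_, a, hz'⟩
    have h6 := (h2 _ (h1 _ _ h4).2).2 ⟨z, hz, h4⟩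
    have h7 := (h2 _ (h1 _ _ h5).2).2 ⟨z, hz, h5⟩
    rw [g.j_opair] at h6 h7
    exact g.inj (ht _ _ _ h6 h7)

/-- a regular cardinal above the size of the poset stays regular -/
theorem reg_j {κ : M} (hκ : IsReg κ) (hs : ¬ Le κ (prodS P R)) : IsReg (g.j κ) := by
  have hord : IsOrd (g.j κ) := g.j_ord.2 hκ.ord
  have key : ∀ (S y : N), y ∈ g.j κ → MSub S (g.j κ) → Le S y → ∃ b : M, b ∈ κ ∧ ∀ s : N, s ∈ S → s ∈ g.j b := by
    intro S y hy hS hle
    obtain ⟨y, hy', rfl⟩ := g.mem_j.1 hy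
    obtain ⟨F, hF, h1, h2⟩ := hle.fn
    let t : N := sepS (prodS (g.j y) (g.j κ)) (fun w => snd w ∈ S ∧ F (snd w) = fst w)
    have ht : ∀ a b : N, opair a b ∈ t ↔ (a ∈ g.j y ∧ b ∈ g.j κ) ∧ b ∈ S ∧ F b = a := by
      intro a b
      simp only [t]
      rw [mem_sepS (by fun_prop), opair_mem_prodS, fst_opair, snd_opair]
    obtain ⟨T, hT1, hT2, hT3⟩ := cover_small g (A := y) (C := κ) (t := t) (fun a b b' h3 h4 => by
      rw [ht] at h3 h4
      exact h2 _ _ h3.2.1 h4.2.1 (h3.2.2.trans h4.2.2.symm))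
    have hT4 : ¬ Le κ T := fun h => hκ.prod hs (hκ.init y hy') (h.trans hT2)
    obtain ⟨b, hb, hb'⟩ := bdd_of_small hκ hT1 hT4
    refine ⟨b, hb, fun s hs' => ?_⟩
    have h5 := hT3 (F s) s (h1 s hs') (hS s hs') ((ht _ _).2 ⟨⟨h1 s hs', hS s hs'⟩, hs', rfl⟩)
    obtain ⟨s, hs'', rfl⟩ := g.mem_j.1 h5
    exact g.j_mem_j.2 (hb' s hs'')
  refine ⟨hord, ?_, ?_, ?_, ?_⟩
  · rw [← g.j_emp, g.j_mem_j]; exact hκ.zero
  · intro x hx
    obtain ⟨x, hx', rfl⟩ := g.mem_j.1 hx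
    rw [← g.j_suc, g.j_mem_j]; exact hκ.succ x hx'
  · intro x hx hle
    obtain ⟨b, hb, hb'⟩ := key (g.j κ) x hx (fun z h => h) hle
    exact mem_irrefl _ (hb' (g.j b) (g.j_mem_j.2 hb))
  · intro S hS h
    by_contra hcon
    obtain ⟨y, hy, _, h3, _⟩ := exists_mem_le hord hcon
    obtain ⟨b, hb, hb'⟩ := key S y hy hS h3
    obtain ⟨s, hs', hbs⟩ := h (g.j b) (g.j_mem_j.2 hb)
    exact mem_asymm hbs (hb' s hs')

/-- an injection of ground model sets in the extension gives one in the ground model -/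
theorem ground_le {A C : M} (hω : Le (om M) C) (hC : Le (prodS P R) C) (h : Le (g.j A) (g.j C)) : Le A C := by
  obtain ⟨F, hF, hF1, hF2⟩ := h.fn
  let t : N := sepS (prodS (g.j A) (g.j C)) (fun w => F (fst w) = snd w)
  have ht : ∀ a b : N, opair a b ∈ t ↔ (a ∈ g.j A ∧ b ∈ g.j C) ∧ F a = b := by
    intro a b
    simp only [t]
    rw [mem_sepS (by fun_prop), opair_mem_prodS, fst_opair, snd_opair]
  obtain ⟨τ, h1, h2⟩ := name_set g t (prodS A C)
  let gd : M → Prop := fun z => (∀ a c c' : M, opair z (opair a c) ∈ τ → opair z (opair a c') ∈ τ → c = c') ∧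
    ∀ a a' c : M, opair z (opair a c) ∈ τ → opair z (opair a' c) ∈ τ → a = a'
  have hgd : DefP M gd := by simp only [gd]; fun_prop
  have hGgd : ∀ z : M, g.j z ∈ g.G → gd z := by
    intro z hz
    have h3 : ∀ a c : M, opair z (opair a c) ∈ τ → (g.j a ∈ g.j A ∧ g.j c ∈ g.j C) ∧ F (g.j a) = g.j c := by
      intro a c h4
      have h5 := (h2 _ (h1 _ _ h4).2).2 ⟨z, hz, h4⟩
      rwa [g.j_opair, ht] at h5
    refine ⟨fun a c c' h4 h5 => ?_, fun a a' c h4 h5 => ?_⟩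
    · exact g.inj ((h3 _ _ h4).2.symm.trans (h3 _ _ h5).2)
    · exact g.inj (hF2 _ _ (h3 _ _ h4).1.1 (h3 _ _ h5).1.1 ((h3 _ _ h4).2.trans (h3 _ _ h5).2.symm))
  have hle : ∀ z : M, z ∈ sepS (prodS P R) gd → Le (sepS A (fun a => ∃ c : M, opair z (opair a c) ∈ τ)) C := by
    intro z hz
    obtain ⟨_, hg1, hg2⟩ := (mem_sepS hgd).1 hz
    have h5 : ∀ a c : M, opair z (opair a c) ∈ τ → theD (fun c => opair z (opair a c) ∈ τ) = c := by
      intro a c h6
      exact theD_eq (R := fun c => opair z (opair a c) ∈ τ) h6 (fun c' h' => hg1 _ _ _ h' h6)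
    refine Le.of (fun a => theD (fun c => opair z (opair a c) ∈ τ)) (by fun_prop) (fun a ha => ?_) (fun a b ha hb hab => ?_)
    · obtain ⟨_, c, hc⟩ := (mem_sepS (by fun_prop)).1 ha
      rw [h5 a c hc]
      exact (opair_mem_prodS.1 (h1 _ _ hc).2).2
    · obtain ⟨_, c, hc⟩ := (mem_sepS (by fun_prop)).1 ha
      obtain ⟨_, c', hc'⟩ := (mem_sepS (by fun_prop)).1 hb
      simp only [h5 a c hc, h5 b c' hc'] at hab
      rw [hab] at hc
      exact hg2 _ _ _ hc hc'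
  refine (Le.of_sub (fun a ha => ?_)).trans (union_le (I := sepS (prodS P R) gd)
    (F := fun z => sepS A (fun a => ∃ c : M, opair z (opair a c) ∈ τ)) (by fun_prop) hω
    ((Le.of_sub (fun z hz => ((mem_sepS hgd).1 hz).1)).trans hC) hle)
  have hja := hF1 (g.j a) (g.j_mem_j.2 ha)
  obtain ⟨c, hc, hc'⟩ := g.mem_j.1 hja
  have h6 := (h2 _ (opair_mem_prodS.2 ⟨ha, hc⟩)).1 (by
    rw [g.j_opair, ht]; exact ⟨⟨g.j_mem_j.2 ha, g.j_mem_j.2 hc⟩, hc'⟩)
  obtain ⟨z, hz, hz'⟩ := h6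
  refine mem_sU.2 ⟨_, (mem_repS (by fun_prop)).2 ⟨z, (mem_sepS hgd).2 ⟨(h1 _ _ hz').1, hGgd z hz⟩, rfl⟩, ?_⟩
  exact (mem_sepS (by fun_prop)).2 ⟨ha, c, hz'⟩

/-- a function on a regular cardinal with values in a ground model set contains a ground model function with an
unbounded domain -/
theorem approx {κ E0 : M} (hκ : IsReg κ) (hs : ¬ Le κ (prodS P R)) {Y : N → N} (hY : DefF N Y)
    (h : ∀ a : N, a ∈ g.j κ → Y a ∈ g.j E0) : ∃ Z : M, (∀ a y : M, opair a y ∈ Z → a ∈ κ ∧ y ∈ E0 ∧ Y (g.j a) = g.j y) ∧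
      ∀ b : M, b ∈ κ → ∃ a y : M, b ∈ a ∧ opair a y ∈ Z := by
  obtain ⟨τ, h1, h2⟩ := name_set g (lam (g.j κ) Y) (prodS κ E0)
  have h3 : ∀ z a y : M, g.j z ∈ g.G → opair z (opair a y) ∈ τ → a ∈ κ ∧ y ∈ E0 ∧ Y (g.j a) = g.j y := by
    intro z a y hz h4
    have h5 := opair_mem_prodS.1 (h1 _ _ h4).2
    have h6 := (h2 _ (h1 _ _ h4).2).2 ⟨z, hz, h4⟩
    rw [g.j_opair, mem_lam hY] at h6
    obtain ⟨w, _, hw⟩ := h6
    rw [opair_inj] at hw
    exact ⟨h5.1, h5.2, by rw [hw.2, hw.1]⟩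
  by_contra hcon
  -- every condition of the filter decides the function on a bounded set only
  let bdS : M → M → Prop := fun z b => b ∈ κ ∧ ∀ a y : M, opair z (opair a y) ∈ τ → ¬ b ∈ a
  have hbdS : DefP M (fun p : M × M => bdS p.1 p.2) := by simp only [bdS]; fun_prop
  let T : M := repS (sepS (prodS P R) (fun z => ∃ b : M, bdS z b)) (fun z => leastO (bdS z))
  have hbd : ∀ z : M, (∃ b : M, bdS z b) → bdS z (leastO (bdS z)) := by
    rintro z ⟨b, hb⟩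
    exact (leastO_spec (R := bdS z) (by simp only [bdS]; fun_prop) (ord_mem hκ.ord hb.1) hb).2.1
  have hT1 : MSub T κ := by
    intro w hw
    obtain ⟨z, hz, rfl⟩ := (mem_repS (by simp only [bdS]; fun_prop)).1 hw
    exact (hbd z ((mem_sepS (by simp only [bdS]; fun_prop)).1 hz).2).1
  have hT2 : ¬ Le κ T := fun h => hs ((h.trans (le_repS (by simp only [bdS]; fun_prop))).trans
    (Le.of_sub (fun z hz => ((mem_sepS (by simp only [bdS]; fun_prop)).1 hz).1)))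
  obtain ⟨b, hb, hb'⟩ := bdd_of_small hκ hT1 hT2
  have h4 := h (g.j b) (g.j_mem_j.2 hb)
  obtain ⟨y, hy, hy'⟩ := g.mem_j.1 h4
  have h5 := (h2 _ (opair_mem_prodS.2 ⟨hb, hy⟩)).1 (by
    rw [g.j_opair, mem_lam hY]
    exact ⟨g.j b, g.j_mem_j.2 hb, by rw [hy']⟩)
  obtain ⟨z, hz, hz'⟩ := h5
  by_cases hbz : ∃ b : M, bdS z b
  · have h6 := hbd z hbz
    have h7 : leastO (bdS z) ∈ b := hb' _ ((mem_repS (by simp only [bdS]; fun_prop)).2
      ⟨z, (mem_sepS (by simp only [bdS]; fun_prop)).2 ⟨(h1 _ _ hz').1, hbz⟩, rfl⟩)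
    exact h6.2 b y hz' h7
  · apply hcon
    refine ⟨sepS (prodS κ E0) (fun w => opair z w ∈ τ), fun a y h6 => ?_, fun b hb => ?_⟩
    · exact h3 z a y hz ((mem_sepS (by fun_prop)).1 h6).2
    · by_contra h7
      apply hbz
      refine ⟨b, hb, fun a y h8 h9 => h7 ⟨a, y, h9, (mem_sepS (by fun_prop)).2 ⟨?_, h8⟩⟩⟩
      have := h3 z a y hz h8
      exact opair_mem_prodS.2 ⟨this.1, this.2.1⟩

end

end Pool.Agent.Helper79.Game
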