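import Pool.Agent.Helper79.Game.Run
import Pool.Agent.Helper79.Game.Ground

/-!
# A Baire category argument
-/

namespace Pool.Agent.Helper79.Game

open Pool.Agent.Helper79.ZF Pool.Agent.Helper79.Kurepa

section
variable {M : Type} [Membership M M] [ZFCM M]
variable {α β γ : Type} [Ctx M α] [Ctx M β] [Ctx M γ]

/-- the class `F` of subsets of `ω` misses the basic open set given by `(m, t)` -/
def Miss (F : M → Prop) (m t : M) : Prop := ∀ f : M, MSub f (om M) → capS f m = t → ¬ F f

@[fun_prop]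
theorem Miss_def {F : α → M → Prop} {f g : α → M} (hF : DefP M (fun p : α × M => F p.1 p.2)) (hf : DefF M f) (hg : DefF M g) :
    DefP M (fun a => Miss (F a) (f a) (g a)) := by
  unfold Miss
  apply DefP.all
  apply DefP.imp (by fun_prop)
  apply DefP.imp (by fun_prop)
  exact DefP.not (DefP_comp hF (f := fun p : α × M => (p.1, p.2)) (by fun_prop))

/-- the space of subsets of `ω` is not a countable union of nowhere dense sets -/
theorem baire {I : M} (hI : Le I (om M)) {F : M → M → Prop} (hF : DefP M (fun p : M × M => F p.1 p.2))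
    (h : ∀ z n s : M, z ∈ I → n ∈ om M → MSub s n → ∃ m t : M, m ∈ om M ∧ MSub n m ∧ MSub t m ∧ capS t n = s ∧ Miss (F z) m t) :
    ∃ f : M, MSub f (om M) ∧ ∀ z : M, z ∈ I → ¬ F z f := by
  obtain ⟨e, he, he1, he2⟩ := hI.fn
  -- basic open sets
  let Q : M := sepS (prodS (om M) (pow (om M))) (fun w => MSub (snd w) (fst w))
  have hQ : ∀ n s : M, opair n s ∈ Q ↔ n ∈ om M ∧ MSub s n := by
    intro n s
    simp only [Q]
    rw [mem_sepS (by fun_prop), opair_mem_prodS, fst_opair, snd_opair, mem_pow]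
    exact ⟨fun h => ⟨h.1.1, h.2⟩, fun h => ⟨⟨h.1, fun z hz => om_tr h.1 (h.2 z hz)⟩, h.2⟩⟩
  have hQ' : ∀ w : M, w ∈ Q → w = opair (fst w) (snd w) := by
    intro w hw
    obtain ⟨a, b, _, _, rfl⟩ := mem_prodS.1 ((mem_sepS (by fun_prop)).1 hw).1
    rw [fst_opair, snd_opair]
  obtain ⟨st, hst, hst'⟩ := choice (R := fun w v => v ∈ Q ∧ MSub (fst (snd w)) (fst v) ∧ capS (snd v) (fst (snd w)) = snd (snd w) ∧
    ∀ z : M, z ∈ I → e z = fst w → Miss (F z) (fst v) (snd v)) (by
      apply DefP.and (by fun_prop)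
      apply DefP.and (by fun_prop)
      apply DefP.and (by fun_prop)
      apply DefP.all
      apply DefP.imp (by fun_prop)
      apply DefP.imp (by fun_prop)
      apply Miss_def
      · exact DefP_comp hF (f := fun p : ((M × M) × M) × M => (p.1.2, p.2)) (by fun_prop)
      · fun_prop
      · fun_prop) (prodS (om M) Q) (by
    intro w hw
    obtain ⟨l, v, hl, hv, rfl⟩ := mem_prodS.1 hw
    rw [hQ' v hv, hQ] at hv
    simp only [fst_opair, snd_opair]
    by_cases hex : ∃ z : M, z ∈ I ∧ e z = l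
    · obtain ⟨z, hz, hzl⟩ := hex
      obtain ⟨m, t, h1, h2, h3, h4, h5⟩ := h z (fst v) (snd v) hz hv.1 hv.2
      refine ⟨opair m t, (hQ m t).2 ⟨h1, h3⟩, by rwa [fst_opair], by rwa [snd_opair], fun z' hz' h6 => ?_⟩
      rw [he2 z' z hz' hz (h6.trans hzl.symm), fst_opair, snd_opair]; exact h5
    · push Not at hex
      refine ⟨opair (fst v) (snd v), (hQ _ _).2 hv, by rw [fst_opair]; exact fun z h => h, ?_, fun z hz h6 => absurd h6 (hex z hz)⟩
      rw [snd_opair]
      apply ext'
      intro z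
      rw [mem_capS]
      exact ⟨fun h => h.1, fun h => ⟨h, hv.2 z h⟩⟩)
  classical
  let Rr : M → M := memRec (fun k h => if k = emp then opair emp emp else st (opair (sU k) (app h (sU k))))
  have hG : DefF M (fun p : M × M => if p.1 = emp then opair (emp : M) emp else st (opair (sU p.1) (app p.2 (sU p.1)))) :=
    DefF.cond (R := fun p : M × M => p.1 = emp) (by fun_prop) (DefF_const _) (by fun_prop)
  have hRr : DefF M Rr := by
    simp only [Rr]
    exact DefF.memRec (G := fun (_ : M) k h => if k = emp then opair (emp : M) emp else st (opair (sU k) (app h (sU k))))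
      (DefF_comp hG (f := fun p : M × (M × M) => p.2) (by fun_prop)) (by fun_prop)
  have hR0 : Rr emp = opair emp emp := by
    have := memRec_eq (G := fun k h => if k = emp then opair (emp : M) emp else st (opair (sU k) (app h (sU k)))) hG (emp : M)
    simp only [if_true] at this
    exact this
  have hRs : ∀ k : M, k ∈ om M → Rr (suc k) = st (opair k (Rr k)) := by
    intro k hk
    have h1 := memRec_eq (G := fun k h => if k = emp then opair (emp : M) emp else st (opair (sU k) (app h (sU k)))) hG (suc k)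
    have h2 : sU (suc k) = k := by
      apply ext'
      intro z
      rw [mem_sU]
      constructor
      · rintro ⟨w, hw, hz⟩
        rcases mem_suc.1 hw with h3 | h3
        · exact (om_ord hk).1 w z h3 hz
        · rw [← h3]; exact hz
      · intro hz; exact ⟨k, mem_suc.2 (Or.inr rfl), hz⟩
    have h3 : app (lam (suc k) Rr) k = Rr k := app_lam hRr (mem_suc.2 (Or.inr rfl))
    have h4 : Rr (suc k) = if suc k = emp then opair emp emp else st (opair (sU (suc k)) (app (lam (suc k) Rr) (sU (suc k)))) := h1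
    rw [h4, if_neg (suc_ne_emp k), h2, h3]
  have hRQ : ∀ k : M, k ∈ om M → Rr k ∈ Q := by
    intro k hk
    refine om_induction (R := fun k => Rr k ∈ Q) (by fun_prop) ?_ ?_ hk
    · rw [hR0, hQ]; exact ⟨zero_mem_om, fun z h => h⟩
    · intro k hk ih
      rw [hRs k hk]
      exact (hst' _ (opair_mem_prodS.2 ⟨hk, ih⟩)).1
  have hstep : ∀ k : M, k ∈ om M → MSub (fst (Rr k)) (fst (Rr (suc k))) ∧ capS (snd (Rr (suc k))) (fst (Rr k)) = snd (Rr k) ∧
      ∀ z : M, z ∈ I → e z = k → Miss (F z) (fst (Rr (suc k))) (snd (Rr (suc k))) := by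
    intro k hk
    have h1 := (hst' _ (opair_mem_prodS.2 ⟨hk, hRQ k hk⟩)).2
    rw [fst_opair, snd_opair, ← hRs k hk] at h1
    exact h1
  have hsub : ∀ k : M, k ∈ om M → MSub (snd (Rr k)) (fst (Rr k)) ∧ fst (Rr k) ∈ om M := by
    intro k hk
    have h1 := hRQ k hk
    rw [hQ' _ h1, hQ] at h1
    exact ⟨h1.2, h1.1⟩
  -- monotonicity
  have hmono : ∀ l : M, l ∈ om M → ∀ k : M, k ∈ l → MSub (fst (Rr k)) (fst (Rr l)) ∧ capS (snd (Rr l)) (fst (Rr k)) = snd (Rr k) := by
    intro l hl
    refine om_induction (R := fun l => ∀ k : M, k ∈ l → MSub (fst (Rr k)) (fst (Rr l)) ∧ capS (snd (Rr l)) (fst (Rr k)) = snd (Rr k))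
      (by fun_prop) (fun k hk => absurd hk (not_mem_emp k)) ?_ hl
    intro l hl ih k hk
    obtain ⟨h1, h2, _⟩ := hstep l hl
    rcases mem_suc.1 hk with h3 | h3
    · obtain ⟨h4, h5⟩ := ih k h3
      refine ⟨fun z hz => h1 z (h4 z hz), ?_⟩
      rw [← h5, ← h2, capS_capS h4]
    · rw [h3]; exact ⟨h1, h2⟩
  have hfin : ∀ k : M, k ∈ om M → capS (sU (repS (om M) (fun k => snd (Rr k)))) (fst (Rr k)) = snd (Rr k) := by
    intro k hk
    apply ext'
    intro z
    rw [mem_capS]
    constructor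
    · rintro ⟨h1, h2⟩
      obtain ⟨w, hw, hz⟩ := mem_sU.1 h1
      obtain ⟨l, hl, rfl⟩ := (mem_repS (by fun_prop)).1 hw
      rcases ord_trich k l (om_ord hk) (om_ord hl) with h3 | h3 | h3
      · rw [← (hmono l hl k h3).2]
        exact mem_capS.2 ⟨hz, h2⟩
      · rw [h3]; exact hz
      · have h4 := (hmono k hk l h3).2
        rw [← h4] at hz
        exact (mem_capS.1 hz).1
    · intro h1
      exact ⟨mem_sU.2 ⟨_, (mem_repS (by fun_prop)).2 ⟨k, hk, rfl⟩, h1⟩, (hsub k hk).1 z h1⟩
  refine ⟨sU (repS (om M) (fun k => snd (Rr k))), fun z hz => ?_, fun z hz => ?_⟩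
  · obtain ⟨w, hw, hz⟩ := mem_sU.1 hz
    obtain ⟨l, hl, rfl⟩ := (mem_repS (by fun_prop)).1 hw
    exact om_tr (hsub l hl).2 ((hsub l hl).1 z hz)
  · have h1 := (hstep (e z) (he1 z hz)).2.2 z hz rfl
    apply h1
    · intro w hw
      obtain ⟨v, hv, hw⟩ := mem_sU.1 hw
      obtain ⟨l, hl, rfl⟩ := (mem_repS (by fun_prop)).1 hv
      exact om_tr (hsub l hl).2 ((hsub l hl).1 w hw)
    · exact hfin _ (suc_mem_om (he1 z hz))

end

end Pool.Agent.Helper79.Game
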