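import Pool.Agent.Helper79.Game.Defs
import Pool.Agent.Helper79.Kurepa.Pos

/-!
# Basic facts about functions in a model
-/

namespace Pool.Agent.Helper79.Game

open Pool.Agent.Helper79.ZF Pool.Agent.Helper79.Kurepa

section
variable {N : Type} [Membership N N] [ZFModel N]
variable {α β γ : Type} [Ctx N α] [Ctx N β] [Ctx N γ]

theorem app_iff {f x y : N} : App f x y ↔ opair x y ∈ f := by
  unfold App
  constructor
  · rintro ⟨p, hp, h⟩
    rw [isPair_iff] at h
    rw [← h]; exact hp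
  · intro h; exact ⟨_, h, isPair_iff.2 rfl⟩

omit [ZFModel N] in
@[fun_prop]
theorem App_def {f g h : α → N} (hf : DefF N f) (hg : DefF N g) (hh : DefF N h) :
    DefP N (fun a => App (f a) (g a) (h a)) := by
  unfold App; fun_prop

omit [ZFModel N] in
@[fun_prop]
theorem IsFun_def {f g h : α → N} (hf : DefF N f) (hg : DefF N g) (hh : DefF N h) :
    DefP N (fun a => IsFun (f a) (g a) (h a)) := by
  unfold IsFun; fun_prop

omit [ZFModel N] in
@[fun_prop]
theorem Agree_def {f g h : α → N} (hf : DefF N f) (hg : DefF N g) (hh : DefF N h) :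
    DefP N (fun a => Agree (f a) (g a) (h a)) := by
  unfold Agree; fun_prop

theorem isFun_iff {f A B : N} : IsFun f A B ↔ ((∀ p : N, p ∈ f → ∃ x y : N, x ∈ A ∧ y ∈ B ∧ p = opair x y) ∧
    ∀ x : N, x ∈ A → ∃ y : N, ∀ z : N, opair x z ∈ f ↔ z = y) := by
  unfold IsFun
  simp only [app_iff, isPair_iff]

/-- the value of a function -/
theorem IsFun.ap {f A B x : N} (h : IsFun f A B) (hx : x ∈ A) : app f x ∈ B ∧ ∀ z : N, opair x z ∈ f ↔ z = app f x := by
  rw [isFun_iff] at h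
  obtain ⟨y, hy⟩ := h.2 x hx
  have h1 : opair x y ∈ f := (hy y).2 rfl
  have h2 : app f x = y := app_eq h1 (fun y' h' => (hy y').1 h')
  obtain ⟨a, b, _, hb, hab⟩ := h.1 _ h1
  rw [opair_inj] at hab
  rw [h2]
  exact ⟨by rw [hab.2]; exact hb, hy⟩

theorem IsFun.mem {f A B x y : N} (h : IsFun f A B) (hxy : opair x y ∈ f) : x ∈ A ∧ y ∈ B := by
  obtain ⟨a, b, ha, hb, hab⟩ := (isFun_iff.1 h).1 _ hxy
  rw [opair_inj] at hab
  rw [hab.1, hab.2]; exact ⟨ha, hb⟩

theorem isFun_lam {A B : N} {F : N → N} (hF : DefF N F) (h : ∀ x : N, x ∈ A → F x ∈ B) : IsFun (lam A F) A B := by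
  rw [isFun_iff]
  refine ⟨fun p hp => ?_, fun x hx => ⟨F x, fun z => ?_⟩⟩
  · obtain ⟨w, hw, rfl⟩ := (mem_lam hF).1 hp
    exact ⟨w, F w, hw, h w hw, rfl⟩
  · rw [mem_lam hF]
    constructor
    · rintro ⟨w, _, hw⟩
      rw [opair_inj] at hw
      rw [hw.2, hw.1]
    · rintro rfl; exact ⟨x, hx, rfl⟩

theorem IsFun.ext {f g A B C : N} (hf : IsFun f A B) (hg : IsFun g A C) (h : ∀ x : N, x ∈ A → app f x = app g x) : f = g := by
  apply ext'
  intro z
  constructor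
  · intro hz
    obtain ⟨a, b, ha, hb, rfl⟩ := (isFun_iff.1 hf).1 z hz
    rw [(hf.ap ha).2] at hz
    rw [(hg.ap ha).2, hz, h a ha]
  · intro hz
    obtain ⟨a, b, ha, hb, rfl⟩ := (isFun_iff.1 hg).1 z hz
    rw [(hg.ap ha).2] at hz
    rw [(hf.ap ha).2, hz, h a ha]

theorem IsFun.eq_lam {f A B : N} (hf : IsFun f A B) : lam A (app f) = f :=
  (isFun_lam (B := B) (by fun_prop) (fun x hx => (hf.ap hx).1)).ext hf (fun x hx => app_lam (by fun_prop) hx)

theorem agree_iff {x y κ B C α : N} (hx : IsFun x κ B) (hy : IsFun y κ C) (hα : MSub α κ) :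
    Agree x y α ↔ ∀ ξ : N, ξ ∈ α → app x ξ = app y ξ := by
  unfold Agree
  simp only [app_iff]
  constructor
  · intro h ξ hξ
    have h1 := (h ξ (app x ξ) hξ).1 (((hx.ap (hα ξ hξ)).2 _).2 rfl)
    exact ((hy.ap (hα ξ hξ)).2 _).1 h1
  · intro h ξ η hξ
    rw [(hx.ap (hα ξ hξ)).2, (hy.ap (hα ξ hξ)).2, h ξ hξ]

theorem Agree.symm {x y α : N} (h : Agree x y α) : Agree y x α := fun ξ η hξ => (h ξ η hξ).symm
theorem Agree.trans {x y z α : N} (h : Agree x y α) (h' : Agree y z α) : Agree x z α :=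
  fun ξ η hξ => (h ξ η hξ).trans (h' ξ η hξ)
theorem Agree.refl (x α : N) : Agree x x α := fun _ _ _ => Iff.rfl
theorem Agree.mono {x y α β : N} (h : Agree x y α) (hβ : MSub β α) : Agree x y β := fun ξ η hξ => h ξ η (hβ ξ hξ)

end

section
variable {N : Type} [Membership N N] [ZFCM N]

/-- a small subset of a regular cardinal is bounded -/
theorem bdd_of_small {κ S : N} (hκ : IsReg κ) (hS : MSub S κ) (h : ¬ Le κ S) : ∃ b : N, b ∈ κ ∧ ∀ y : N, y ∈ S → y ∈ b := by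
  by_contra hcon
  apply h
  apply hκ.reg S hS
  intro x hx
  by_contra h2
  push Not at h2
  apply hcon
  refine ⟨suc x, hκ.succ x hx, fun y hy => ?_⟩
  rcases ord_trich x y (ord_mem hκ.ord hx) (ord_mem hκ.ord (hS y hy)) with h3 | h3 | h3
  · exact absurd h3 (h2 y hy)
  · exact mem_suc.2 (Or.inr h3.symm)
  · exact mem_suc.2 (Or.inl h3)

/-- the statement's regular uncountable cardinals -/
theorem reg_of {κ : N} (hκ : IsReg κ) (h : om N ∈ κ) : Reg κ := by
  refine ⟨hκ.ord, ⟨om N, h, isOmega_iff.2 rfl⟩, fun α f hα hf => ?_⟩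
  obtain ⟨b, hb, hb'⟩ := bdd_of_small hκ (S := repS α (app f)) (fun z hz => by
    obtain ⟨x, hx, rfl⟩ := (mem_repS (by fun_prop)).1 hz
    exact (hf.ap hx).1) (fun h => hκ.init α hα (h.trans (le_repS (by fun_prop))))
  refine ⟨b, hb, fun ξ η h => hb' η ?_⟩
  rw [app_iff] at h
  have h1 := hf.mem h
  exact (mem_repS (by fun_prop)).2 ⟨ξ, h1.1, ((hf.ap h1.1).2 _).1 h⟩

end

end Pool.Agent.Helper79.Game
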