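import Mathlib
import Pool.Agent.Helper79.ZF.OrdDef
import Pool.Agent.Helper79.Kurepa.Model

/-!
# Generalized Baire space and the long perfect set game in a model of set theory
-/

namespace Pool.Agent.Helper79.Game

open Pool.Agent.Helper79.ZF Pool.Agent.Helper79.Kurepa

section
variable {N : Type} [Membership N N]

/-- `f(x) = y`: the ordered pair `(x, y)` is an element of `f`. -/
def App (f x y : N) : Prop := ∃ p : N, p ∈ f ∧ IsPair p x y

/-- `f` is a function from `A` to `B`. -/
def IsFun (f A B : N) : Prop :=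
  (∀ p : N, p ∈ f → ∃ x y : N, x ∈ A ∧ y ∈ B ∧ IsPair p x y) ∧
  ∀ x : N, x ∈ A → ∃ y : N, ∀ z : N, App f x z ↔ z = y

/-- `κ` is a regular uncountable cardinal: an ordinal with `ω ∈ κ` such that every function from a
member of `κ` to `κ` is bounded in `κ`. -/
def Reg (κ : N) : Prop := IsOrd κ ∧ (∃ W : N, W ∈ κ ∧ IsOmega W) ∧
  ∀ α f : N, α ∈ κ → IsFun f α κ → ∃ β : N, β ∈ κ ∧ ∀ ξ η : N, App f ξ η → η ∈ β

/-- The functions `x` and `y` agree below `α`. -/
def Agree (x y α : N) : Prop := ∀ ξ η : N, ξ ∈ α → (App x ξ η ↔ App y ξ η)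

/-- `E` is a closed subset of the space of all functions from `κ` to `κ`, whose topology is generated
by the sets of all functions extending a given function from a member of `κ` to `κ`. -/
def ClosedIn (κ E : N) : Prop := (∀ x : N, x ∈ E → IsFun x κ κ) ∧
  ∀ x : N, IsFun x κ κ → (∀ α : N, α ∈ κ → ∃ y : N, y ∈ E ∧ Agree x y α) → x ∈ E

/-- `F` is a continuous function from `D` onto `E`. -/
def ContSurj (κ D E F : N) : Prop := IsFun F D E ∧ (∀ y : N, y ∈ E → ∃ x : N, App F x y) ∧
  ∀ x y α : N, App F x y → α ∈ κ → ∃ β : N, β ∈ κ ∧ ∀ x' y' : N, App F x' y' → Agree x x' β → Agree y y' α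

/-- `a` is a sequence of moves of Player I: a strictly increasing function from `m` to `κ`, where
`m ∈ ω` or `m = ω`. -/
def Moves (κ m a : N) : Prop := (∃ W : N, IsOmega W ∧ (m ∈ W ∨ m = W)) ∧ IsFun a m κ ∧
  ∀ i k α β : N, i ∈ k → App a i α → App a k β → α ∈ β

/-- `b` is the restriction of `a` to `i`. -/
def IsRes (b a i : N) : Prop := ∀ p : N, p ∈ b ↔ (p ∈ a ∧ ∃ k η : N, k ∈ i ∧ IsPair p k η)

/-- Player II has a winning strategy in the game `G_κ(E, x0, ω+1)`.  Her strategy is a function `S`; when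
Player I has played `α_1 < ... < α_n`, which is the sequence `a = (α_1, ..., α_n)` (so `a(i) = α_{i+1}` for
`i < n`), she plays `x_n = S(a)` in round `n ≥ 1`; when he has played `α_1 < α_2 < ...`, which is the sequence
`a = (α_1, α_2, ...)` of length `ω`, his move in round `ω` must be the supremum and she plays `x_ω = S(a)`;
moreover `x_0 = S(∅)`.  Her moves must be members of `E` with `x_ξ ≠ x_i` and `x_ξ` agreeing with `x_i`
below `α_{i+1}` for all `i < ξ ≤ ω`. -/
def WinII (κ E x0 : N) : Prop := ∃ S : N, ∀ m a : N, Moves κ m a → ∃ x : N, x ∈ E ∧ (∀ z : N, App S a z ↔ z = x) ∧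
  ((∀ p : N, ¬ p ∈ a) → x = x0) ∧
  ∀ i α b y : N, i ∈ m → App a i α → IsRes b a i → App S b y → y ≠ x ∧ Agree x y α

/-- `E` is an `(ω+1)`-perfect subset of the space of functions from `κ` to `κ`. -/
def Perfect (κ E : N) : Prop := ClosedIn κ E ∧ ∀ x0 : N, x0 ∈ E → WinII κ E x0

/-- `S` is the set of all functions from members of `κ` to `κ`. -/
def IsSeqs (κ S : N) : Prop := ∀ s : N, s ∈ S ↔ ∃ α : N, α ∈ κ ∧ IsFun s α κ

/-- The hypotheses of the questions: `κ` is regular uncountable, `D` is `(ω+1)`-perfect, `E` is closed and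
`F` is a continuous function from `D` onto `E`. -/
def Hyp (κ D E F : N) : Prop := Reg κ ∧ Perfect κ D ∧ ClosedIn κ E ∧ ContSurj κ D E F

end

/-- The negative answer to Q1 in the model `N`: for some `κ`, `D`, `E` as in the hypotheses, for every
`X ⊆ E` of cardinality at most `κ^{<κ}` there is `x0 ∈ E \ X` such that Player II has no winning strategy in
`G_κ(E, x0, ω+1)`. -/
def NegQ1 (N : Type) [Membership N N] : Prop := ∃ κ D E F : N, Hyp κ D E F ∧
  ∀ X S : N, MSub X E → IsSeqs κ S → Le X S → ∃ x0 : N, x0 ∈ E ∧ ¬ x0 ∈ X ∧ ¬ WinII κ E x0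

/-- The negative answer to Q2 in the model `N`: for some `κ`, `D`, `E` as in the hypotheses, for no
`X ⊆ E` of cardinality at most `κ^{<κ}` is `E \ X` an `(ω+1)`-perfect set. -/
def NegQ2 (N : Type) [Membership N N] : Prop := ∃ κ D E F : N, Hyp κ D E F ∧
  ∀ X S E' : N, MSub X E → IsSeqs κ S → Le X S → (∀ z : N, z ∈ E' ↔ (z ∈ E ∧ ¬ z ∈ X)) → ¬ Perfect κ E'

end Pool.Agent.Helper79.Game
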