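import Pool.Agent.Helper79.Game.Basic

/-!
# Every closed set of functions with two values is a continuous image of an `(ω+1)`-perfect set
-/

namespace Pool.Agent.Helper79.Game

open Pool.Agent.Helper79.ZF Pool.Agent.Helper79.Kurepa

section
variable {N : Type} [Membership N N] [ZFCM N]
variable {α β γ : Type} [Ctx N α] [Ctx N β] [Ctx N γ]

variable (N) in
/-- the number one -/
noncomputable def o1 : N := suc emp
variable (N) in
/-- the number two -/
noncomputable def o2 : N := suc (o1 N)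
variable (N) in
/-- the number three -/
noncomputable def o3 : N := suc (o2 N)

@[fun_prop]
theorem o1_def : DefF N (fun _ : α => o1 N) := DefF_const _
@[fun_prop]
theorem o2_def : DefF N (fun _ : α => o2 N) := DefF_const _
@[fun_prop]
theorem o3_def : DefF N (fun _ : α => o3 N) := DefF_const _
@[fun_prop]
theorem emp_def' : DefF N (fun _ : α => (emp : N)) := DefF_const _

theorem o01 : (emp : N) ≠ o1 N := (suc_ne_emp _).symm
theorem o02 : (emp : N) ≠ o2 N := (suc_ne_emp _).symm
theorem o03 : (emp : N) ≠ o3 N := (suc_ne_emp _).symm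
theorem o12 : o1 N ≠ o2 N := fun h => o01 (suc_inj h)
theorem o13 : o1 N ≠ o3 N := fun h => o02 (suc_inj h)
theorem o23 : o2 N ≠ o3 N := fun h => o12 (suc_inj h)

/-- one of the four values -/
def Four (v : N) : Prop := v = emp ∨ v = o1 N ∨ v = o2 N ∨ v = o3 N

@[fun_prop]
theorem Four_def {f : α → N} (hf : DefF N f) : DefP N (fun a => Four (f a)) := by
  unfold Four; fun_prop

open Classical in
/-- the parity -/
noncomputable def par (v : N) : N := if v = emp ∨ v = o2 N then emp else o1 N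

@[fun_prop]
theorem par_def {f : α → N} (hf : DefF N f) : DefF N (fun a => par (f a)) := by
  classical
  unfold par
  exact DefF.cond (R := fun a => f a = emp ∨ f a = o2 N) (by fun_prop) (by fun_prop) (by fun_prop)

open Classical in
/-- another value of the same parity -/
noncomputable def alt (v : N) : N := if v = emp then o2 N else if v = o2 N then emp else if v = o1 N then o3 N else o1 N

@[fun_prop]
theorem alt_def {f : α → N} (hf : DefF N f) : DefF N (fun a => alt (f a)) := by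
  classical
  unfold alt
  exact DefF.cond (R := fun a => f a = emp) (by fun_prop) (by fun_prop)
    (DefF.cond (R := fun a => f a = o2 N) (by fun_prop) (by fun_prop)
    (DefF.cond (R := fun a => f a = o1 N) (by fun_prop) (by fun_prop) (by fun_prop)))

theorem alt_four (v : N) : Four (alt v) := by
  unfold alt Four
  split_ifs <;> simp

theorem par_alt {v : N} (h : Four v) : par (alt v) = par v := by
  rcases h with rfl | rfl | rfl | rfl
  · simp [alt, par, o02.symm]
  · simp [alt, par, o01.symm, o12, o03.symm, o23.symm]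
  · simp [alt, par, o02.symm]
  · simp [alt, par, o01.symm, o12, o03.symm, o23.symm, o13.symm]

theorem alt_ne (v : N) : alt v ≠ v := by
  unfold alt
  split_ifs with h1 h2 h3
  · rw [h1]; exact o02.symm
  · rw [h2]; exact o02
  · rw [h3]; exact o13.symm
  · exact fun h => h3 h.symm

theorem four_mem {κ v : N} (hκ : IsReg κ) (h : Four v) : v ∈ κ := by
  have h1 : o1 N ∈ κ := hκ.succ _ hκ.zero
  have h2 : o2 N ∈ κ := hκ.succ _ h1
  have h3 : o3 N ∈ κ := hκ.succ _ h2
  rcases h with rfl | rfl | rfl | rfl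
  · exact hκ.zero
  · exact h1
  · exact h2
  · exact h3

/-- one of the two values -/
def Two (v : N) : Prop := v = emp ∨ v = o1 N

@[fun_prop]
theorem Two_def {f : α → N} (hf : DefF N f) : DefP N (fun a => Two (f a)) := by
  unfold Two; fun_prop

theorem par_two (v : N) : Two (par v) := by
  unfold par Two
  split_ifs <;> simp

theorem par_of_two {v : N} (h : Two v) : par v = v := by
  rcases h with rfl | rfl
  · simp [par]
  · simp [par, o01.symm, o12]

/-- parities of the values -/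
noncomputable def pz (κ z : N) : N := lam κ (fun ξ => par (app z ξ))

@[fun_prop]
theorem pz_def {f g : α → N} (hf : DefF N f) (hg : DefF N g) : DefF N (fun a => pz (f a) (g a)) := by
  unfold pz; fun_prop

open Classical in
/-- change the values at the elements of `A` -/
noncomputable def sw (κ z A : N) : N := lam κ (fun ξ => if ξ ∈ A then alt (app z ξ) else app z ξ)

theorem swf_def {f g : α → N} (hf : DefF N f) (hg : DefF N g) {h : α → N} (hh : DefF N h) [DecidablePred (fun a => h a ∈ g a)] :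
    DefF N (fun a => if h a ∈ g a then alt (app (f a) (h a)) else app (f a) (h a)) :=
  DefF.cond (R := fun a => h a ∈ g a) (by fun_prop) (by fun_prop) (by fun_prop)

@[fun_prop]
theorem sw_def {f g h : α → N} (hf : DefF N f) (hg : DefF N g) (hh : DefF N h) : DefF N (fun a => sw (f a) (g a) (h a)) := by
  classical
  unfold sw
  exact DefF.lam hf (swf_def (α := α × N) (f := fun p => g p.1) (g := fun p => h p.1) (h := fun p => p.2) (by fun_prop) (by fun_prop) (by fun_prop))

open Classical in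
theorem app_sw {κ z A ξ : N} (hξ : ξ ∈ κ) : app (sw κ z A) ξ = if ξ ∈ A then alt (app z ξ) else app z ξ :=
  app_lam (swf_def (α := N) (f := fun _ => z) (g := fun _ => A) (h := fun p => p) (by fun_prop) (by fun_prop) (by fun_prop)) hξ

/-- the perfect set above `E` -/
noncomputable def DD (κ E : N) : N := sepS (Fn κ κ) (fun z => (∀ ξ : N, ξ ∈ κ → Four (app z ξ)) ∧ pz κ z ∈ E)

theorem mem_Fn_iff {κ z : N} : z ∈ Fn κ κ ↔ IsFun z κ κ := by
  rw [mem_Fn, isFun_iff]
  constructor
  · rintro ⟨h1, h2⟩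
    refine ⟨fun p hp => ?_, fun x hx => ?_⟩
    · obtain ⟨a, b, ha, hb, h⟩ := mem_prodS.1 (h1 p hp)
      exact ⟨a, b, ha, hb, h⟩
    · obtain ⟨y, hy, hy'⟩ := h2 (El.mk x hx)
      exact ⟨y.v, fun z => ⟨hy' z, fun h => by rw [h]; exact hy⟩⟩
  · rintro ⟨h1, h2⟩
    refine ⟨fun p hp => ?_, fun x => ?_⟩
    · obtain ⟨a, b, ha, hb, h⟩ := h1 p hp
      exact mem_prodS.2 ⟨a, b, ha, hb, h⟩
    · obtain ⟨y, hy⟩ := h2 x.v x.mem
      have h3 : opair x.v y ∈ z := (hy y).2 rfl
      obtain ⟨a, b, _, hb, hab⟩ := h1 _ h3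
      rw [opair_inj] at hab
      exact ⟨El.mk y (by rw [hab.2]; exact hb), h3, fun y' h => (hy y').1 h⟩

theorem mem_DD {κ E z : N} : z ∈ DD κ E ↔ IsFun z κ κ ∧ (∀ ξ : N, ξ ∈ κ → Four (app z ξ)) ∧ pz κ z ∈ E := by
  unfold DD
  rw [mem_sepS (by fun_prop), mem_Fn_iff]

theorem app_pz {κ z ξ : N} (hξ : ξ ∈ κ) : app (pz κ z) ξ = par (app z ξ) := app_lam (by fun_prop) hξ

theorem two_mem {κ v : N} (hκ : IsReg κ) (h : Two v) : v ∈ κ := by
  apply four_mem hκ
  rcases h with rfl | rfl
  · exact Or.inl rfl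
  · exact Or.inr (Or.inl rfl)

theorem isFun_pz {κ z : N} (hκ : IsReg κ) : IsFun (pz κ z) κ κ :=
  isFun_lam (by fun_prop) (fun x _ => two_mem hκ (par_two _))

theorem isFun_sw {κ z A : N} (hκ : IsReg κ) (hz : IsFun z κ κ) : IsFun (sw κ z A) κ κ := by
  classical
  refine isFun_lam (swf_def (α := N) (f := fun _ => z) (g := fun _ => A) (h := fun p => p) (by fun_prop) (by fun_prop) (by fun_prop))
    (fun x hx => ?_)
  split_ifs
  · exact four_mem hκ (alt_four _)
  · exact (hz.ap hx).1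

theorem sw_mem {κ E z A : N} (hκ : IsReg κ) (hz : z ∈ DD κ E) : sw κ z A ∈ DD κ E := by
  classical
  rw [mem_DD] at hz ⊢
  refine ⟨isFun_sw hκ hz.1, fun ξ hξ => ?_, ?_⟩
  · rw [app_sw hξ]
    split_ifs
    · exact alt_four _
    · exact hz.2.1 ξ hξ
  · have : pz κ (sw κ z A) = pz κ z := by
      apply (isFun_pz hκ).ext (isFun_pz hκ)
      intro ξ hξ
      rw [app_pz hξ, app_pz hξ, app_sw hξ]
      split_ifs
      · exact par_alt (hz.2.1 ξ hξ)
      · rfl
    rw [this]; exact hz.2.2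

/-- Player II wins on `DD` -/
theorem winII_DD {κ E z0 : N} (hκ : IsReg κ) (hz : z0 ∈ DD κ E) : WinII κ (DD κ E) z0 := by
  classical
  have hz' := (mem_DD.1 hz).1
  refine ⟨lam (pow (prodS (om N) κ)) (fun a => sw κ z0 (repS a snd)), fun m a hm => ?_⟩
  obtain ⟨⟨W, hW, hmW⟩, ha, hinc⟩ := hm
  rw [isOmega_iff] at hW
  subst hW
  have hmω : MSub m (om N) := by
    rcases hmW with h | h
    · exact fun z hz => ord_om.1 m z h hz
    · rw [h]; exact fun _ h => h
  have happ : ∀ b : N, MSub b a → ∀ y : N, App (lam (pow (prodS (om N) κ)) (fun a => sw κ z0 (repS a snd))) b y ↔ y = sw κ z0 (repS b snd) := by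
    intro b hb y
    rw [app_iff, mem_lam (by fun_prop)]
    constructor
    · rintro ⟨w, _, h⟩
      rw [opair_inj] at h
      rw [h.2, h.1]
    · rintro rfl
      refine ⟨b, mem_pow.2 (fun p hp => ?_), rfl⟩
      obtain ⟨x, y, hx, hy, rfl⟩ := (isFun_iff.1 ha).1 p (hb p hp)
      exact opair_mem_prodS.2 ⟨hmω x hx, hy⟩
  refine ⟨sw κ z0 (repS a snd), sw_mem hκ hz, happ a (fun _ h => h), fun he => ?_, ?_⟩
  · apply (isFun_sw hκ hz').ext hz'
    intro ξ hξ
    rw [app_sw hξ, if_neg]
    intro h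
    obtain ⟨p, hp, _⟩ := (mem_repS (by fun_prop)).1 h
    exact he p hp
  · intro i α b y hi hiα hb hy
    have hba : MSub b a := fun p hp => ((hb p).1 hp).1
    rw [happ b hba] at hy
    subst hy
    rw [app_iff] at hiα
    have hα : α ∈ κ := (ha.mem hiα).2
    have hbmem : ∀ ξ : N, ξ ∈ repS b snd ↔ ∃ k : N, k ∈ i ∧ opair k ξ ∈ a := by
      intro ξ
      rw [mem_repS (by fun_prop)]
      constructor
      · rintro ⟨p, hp, rfl⟩
        obtain ⟨hp1, k, η, hk, h1⟩ := (hb p).1 hp
        rw [isPair_iff] at h1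
        subst h1
        rw [snd_opair]; exact ⟨k, hk, hp1⟩
      · rintro ⟨k, hk, h1⟩
        exact ⟨opair k ξ, (hb _).2 ⟨h1, k, ξ, hk, isPair_iff.2 rfl⟩, by rw [snd_opair]⟩
    have hamem : ∀ ξ : N, ξ ∈ repS a snd ↔ ∃ k : N, opair k ξ ∈ a := by
      intro ξ
      rw [mem_repS (by fun_prop)]
      constructor
      · rintro ⟨p, hp, rfl⟩
        obtain ⟨x, y, _, _, rfl⟩ := (isFun_iff.1 ha).1 p hp
        rw [snd_opair]; exact ⟨x, hp⟩
      · rintro ⟨k, h1⟩; exact ⟨_, h1, by rw [snd_opair]⟩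
    constructor
    · intro he
      have h1 : app (sw κ z0 (repS b snd)) α = app (sw κ z0 (repS a snd)) α := by rw [he]
      rw [app_sw hα, app_sw hα, if_neg, if_pos] at h1
      · exact alt_ne _ h1.symm
      · rw [hamem]; exact ⟨i, hiα⟩
      · rw [hbmem]
        rintro ⟨k, hk, h2⟩
        exact mem_irrefl _ (hinc k i α α hk (app_iff.2 h2) (app_iff.2 hiα))
    · rw [agree_iff (isFun_sw hκ hz') (isFun_sw hκ hz') (ord_sub hκ.ord hα)]
      intro ξ hξ
      have hξκ : ξ ∈ κ := hκ.ord.1 α ξ hα hξ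
      have : ξ ∈ repS a snd ↔ ξ ∈ repS b snd := by
        rw [hamem, hbmem]
        constructor
        · rintro ⟨k, hk⟩
          refine ⟨k, ?_, hk⟩
          have hkm := (ha.mem hk).1
          rcases ord_trich k i (ord_mem ord_om (hmω k hkm)) (ord_mem ord_om (hmω i hi)) with h1 | h1 | h1
          · exact h1
          · rw [h1] at hk
            have h2 := ((ha.ap hi).2 _).1 hk
            have h3 := ((ha.ap hi).2 _).1 hiα
            rw [h2, ← h3] at hξ
            exact absurd hξ (mem_irrefl _)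
          · exact absurd (hinc i k α ξ h1 (app_iff.2 hiα) (app_iff.2 hk)) (mem_asymm hξ)
        · rintro ⟨k, _, hk⟩; exact ⟨k, hk⟩
      rw [app_sw hξκ, app_sw hξκ]
      simp only [this]

/-- the hypotheses of the questions hold for every closed set of two-valued functions -/
theorem hyp_DD {κ E : N} (hκ : IsReg κ) (hω : om N ∈ κ) (hE : ClosedIn κ E) (h2 : ∀ x : N, x ∈ E → ∀ ξ : N, ξ ∈ κ → Two (app x ξ)) :
    ∃ D F : N, Hyp κ D E F := by
  have hDf : ∀ z : N, z ∈ DD κ E → IsFun z κ κ := fun z hz => (mem_DD.1 hz).1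
  have hagpz : ∀ x y a : N, a ∈ κ → IsFun x κ κ → IsFun y κ κ → Agree x y a → Agree (pz κ x) (pz κ y) a := by
    intro x y a ha hx hy h
    have hsub := ord_sub hκ.ord ha
    rw [agree_iff hx hy hsub] at h
    rw [agree_iff (isFun_pz hκ) (isFun_pz hκ) hsub]
    intro ξ hξ
    rw [app_pz (hsub ξ hξ), app_pz (hsub ξ hξ), h ξ hξ]
  have hcl : ClosedIn κ (DD κ E) := by
    refine ⟨hDf, fun x hx h => ?_⟩
    rw [mem_DD]
    refine ⟨hx, fun ξ hξ => ?_, ?_⟩
    · obtain ⟨y, hy, hag⟩ := h (suc ξ) (hκ.succ ξ hξ)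
      rw [agree_iff hx (hDf y hy) (ord_sub hκ.ord (hκ.succ ξ hξ))] at hag
      rw [hag ξ (mem_suc.2 (Or.inr rfl))]
      exact (mem_DD.1 hy).2.1 ξ hξ
    · apply hE.2 _ (isFun_pz hκ)
      intro a ha
      obtain ⟨y, hy, hag⟩ := h a ha
      exact ⟨pz κ y, (mem_DD.1 hy).2.2, hagpz x y a ha hx (hDf y hy) hag⟩
  have hapF : ∀ x y : N, App (lam (DD κ E) (pz κ)) x y ↔ x ∈ DD κ E ∧ y = pz κ x := by
    intro x y
    rw [app_iff, mem_lam (by fun_prop)]
    constructor
    · rintro ⟨w, hw, h⟩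
      rw [opair_inj] at h
      rw [h.1]; exact ⟨hw, h.2⟩
    · rintro ⟨h, rfl⟩; exact ⟨x, h, rfl⟩
  refine ⟨DD κ E, lam (DD κ E) (pz κ), reg_of hκ hω, ⟨hcl, fun z hz => winII_DD hκ hz⟩, hE, ?_, ?_, ?_⟩
  · exact isFun_lam (by fun_prop) (fun x hx => (mem_DD.1 hx).2.2)
  · intro y hy
    have hyf := hE.1 y hy
    have hpy : pz κ y = y := (isFun_pz hκ).ext hyf (fun ξ hξ => by rw [app_pz hξ, par_of_two (h2 y hy ξ hξ)])
    refine ⟨y, (hapF y y).2 ⟨mem_DD.2 ⟨hyf, fun ξ hξ => ?_, by rw [hpy]; exact hy⟩, hpy.symm⟩⟩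
    rcases h2 y hy ξ hξ with h | h
    · exact Or.inl h
    · exact Or.inr (Or.inl h)
  · intro x y a hxy ha
    rw [hapF] at hxy
    refine ⟨a, ha, fun x' y' h h' => ?_⟩
    rw [hapF] at h
    rw [hxy.2, h.2]
    exact hagpz x x' a ha (hDf x hxy.1) (hDf x' h.1) h'

end

end Pool.Agent.Helper79.Game
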