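import Pool.Agent.Helper79.Game.NoWin
import Pool.Agent.Helper79.Game.Perf
import Pool.Agent.Helper79.Kurepa.Final

/-!
# Both questions have a negative answer in every Cohen extension
-/

namespace Pool.Agent.Helper79.Game

open Pool.Agent.Helper79.ZF Pool.Agent.Helper79.Kurepa

section
variable {M N : Type} [Membership M M] [Membership N N] [ZFCM M] [ZFCM N]

theorem sing_le_om (x : M) : Le (sing x) (om M) := by
  refine Le.of (fun _ => emp) (by fun_prop) (fun z _ => zero_mem_om) (fun z w hz hw _ => ?_)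
  rw [mem_sing.1 hz, mem_sing.1 hw]

theorem Q_le : Le (prodS (Co M) (sing (emp : M))) (om M) := prod_le (Le.refl _) Co_le (sing_le_om _)

variable (g : GenExt M N (Co M) (sing (emp : M)))

include g in
/-- a new real -/
theorem exists_new : ∃ f : N, MSub f (om N) ∧ ∀ f0 : M, f ≠ g.j f0 := by
  have hreg : IsReg (om M) := isReg_om
  have hz0 : (emp : M) ∈ om M := zero_mem_om
  have h1 : o1 M ∈ om M := suc_mem_om hz0
  have h2 : o2 M ∈ om M := suc_mem_om h1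
  have h01 : (emp : M) ∈ o2 M := mem_suc.2 (Or.inl (mem_suc.2 (Or.inr rfl)))
  have h11 : o1 M ∈ o2 M := mem_suc.2 (Or.inr rfl)
  let f : N := sepS (om N) (fun i => ∃ q : N, q ∈ g.G ∧ opair (opair (g.j (o2 M)) i) (g.j (o1 M)) ∈ fst q)
  have hmem : ∀ i : M, i ∈ om M → (g.j i ∈ f ↔ ∃ p r : M, g.j (opair p r) ∈ g.G ∧ opair (opair (o2 M) i) (o1 M) ∈ p) := by
    intro i hi
    simp only [f]
    rw [mem_sepS (by fun_prop)]
    constructor
    · rintro ⟨_, q, hq, h⟩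
      obtain ⟨p, r, _, _, rfl⟩ := g.G_sub q hq
      rw [g.j_opair, fst_opair, ← g.j_opair, ← g.j_opair, g.j_mem_j] at h
      exact ⟨p, r, hq, h⟩
    · rintro ⟨p, r, hq, h⟩
      refine ⟨by rw [← g.j_om, g.j_mem_j]; exact hi, _, hq, ?_⟩
      rw [g.j_opair, fst_opair, ← g.j_opair, ← g.j_opair, g.j_mem_j]
      exact h
  refine ⟨f, fun z hz => ((mem_sepS (by fun_prop)).1 hz).1, fun f0 hf0 => ?_⟩
  have hadd : ∀ p r v : M, p ∈ Co M → r ∈ sing (emp : M) → v ∈ o2 M → ∃ i : M, i ∈ om M ∧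
      Ex (Co M) (sing (emp : M)) p r (cup p (sing (opair (opair (o2 M) i) v))) r := by
    intro p r v hp hr hv
    obtain ⟨i, hi, hfr⟩ := fresh (κ := om M) (μ := om M) hp
    exact ⟨i, hi, add_mem hreg ord_om hp h2 hi hv (fun z => hfr (o2 M) z), hr, fun z hz => mem_cup.2 (Or.inl hz), fun z h => h⟩
  obtain ⟨p, r, hG, i, hi, hpi⟩ := g.gen (fun p r => ∃ i : M, i ∈ om M ∧ ((i ∈ f0 ∧ opair (opair (o2 M) i) emp ∈ p) ∨
      (¬ i ∈ f0 ∧ opair (opair (o2 M) i) (o1 M) ∈ p))) (by fun_prop) (by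
    intro p r hp hr
    obtain ⟨i, hi, hfr⟩ := fresh (κ := om M) (μ := om M) hp
    by_cases hif : i ∈ f0
    · refine ⟨cup p (sing (opair (opair (o2 M) i) emp)), r, ⟨add_mem hreg ord_om hp h2 hi h01 (fun z => hfr (o2 M) z), hr,
        fun z hz => mem_cup.2 (Or.inl hz), fun z h => h⟩, i, hi, Or.inl ⟨hif, mem_cup.2 (Or.inr (mem_sing.2 rfl))⟩⟩
    · refine ⟨cup p (sing (opair (opair (o2 M) i) (o1 M))), r, ⟨add_mem hreg ord_om hp h2 hi h11 (fun z => hfr (o2 M) z), hr,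
        fun z hz => mem_cup.2 (Or.inl hz), fun z h => h⟩, i, hi, Or.inr ⟨hif, mem_cup.2 (Or.inr (mem_sing.2 rfl))⟩⟩)
  rcases hpi with ⟨h3, h4⟩ | ⟨h3, h4⟩
  · have h5 : g.j i ∈ f := by rw [hf0, g.j_mem_j]; exact h3
    obtain ⟨p', r', hG', h6⟩ := (hmem i hi).1 h5
    obtain ⟨p'', r'', hG'', e1, e2⟩ := g.G_dir hG hG'
    have h7 := (mem_Lv.1 (g.G_mem hG'').1).2.2.1 _ _ _ _ (e1.2.2.1 _ h4) (e2.2.2.1 _ h6)
    exact o01 h7
  · have h5 : g.j i ∈ f := (hmem i hi).2 ⟨p, r, hG, h4⟩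
    rw [hf0, g.j_mem_j] at h5
    exact h3 h5

/-- the set of two-valued functions on `κ` -/
noncomputable def E0 (κ : M) : M := sepS (Fn κ κ) (fun x => ∀ ξ : M, ξ ∈ κ → Two (app x ξ))

theorem mem_E0 {κ x : M} : x ∈ E0 κ ↔ IsFun x κ κ ∧ ∀ ξ : M, ξ ∈ κ → Two (app x ξ) := by
  unfold E0
  rw [mem_sepS (by fun_prop), mem_Fn_iff]

theorem pow_le_E0 {κ : M} (hκ : IsReg κ) : Le (pow κ) (E0 κ) := by
  classical
  have hd : ∀ x : M, DefF M (fun ξ : M => if ξ ∈ x then (emp : M) else o1 M) := fun x =>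
    DefF.cond (R := fun ξ : M => ξ ∈ x) (by fun_prop) (by fun_prop) (by fun_prop)
  have hd' : DefF M (fun x : M => lam κ (fun ξ : M => if ξ ∈ x then (emp : M) else o1 M)) := by
    apply DefF.lam (by fun_prop)
    exact DefF.cond (R := fun p : M × M => p.2 ∈ p.1) (by fun_prop) (by fun_prop) (by fun_prop)
  refine Le.of (fun x => lam κ (fun ξ => if ξ ∈ x then (emp : M) else o1 M)) hd' (fun x _ => ?_) (fun x y hx hy hxy => ?_)
  · have h2 : ∀ ξ : M, Two (if ξ ∈ x then (emp : M) else o1 M) := by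
      intro ξ; unfold Two; split_ifs <;> simp
    rw [mem_E0]
    refine ⟨isFun_lam (hd x) (fun ξ _ => two_mem hκ (h2 ξ)), fun ξ hξ => ?_⟩
    rw [app_lam (hd x) hξ]; exact h2 ξ
  · rw [mem_pow] at hx hy
    have key : ∀ x y : M, (∀ z : M, z ∈ x → z ∈ κ) → lam κ (fun ξ => if ξ ∈ x then (emp : M) else o1 M) =
        lam κ (fun ξ => if ξ ∈ y then (emp : M) else o1 M) → ∀ z : M, z ∈ x → z ∈ y := by
      intro x y hx h z hz
      have h1 : app (lam κ (fun ξ => if ξ ∈ x then (emp : M) else o1 M)) z = app (lam κ (fun ξ => if ξ ∈ y then (emp : M) else o1 M)) z := by rw [h]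
      rw [app_lam (hd x) (hx z hz), app_lam (hd y) (hx z hz), if_pos hz] at h1
      by_contra h2
      rw [if_neg h2] at h1
      exact o01 h1
    exact ext' (fun z => ⟨key x y hx hxy z, key y x hy hxy.symm z⟩)

theorem j_o1 : g.j (o1 M) = o1 N := by unfold o1; rw [g.j_suc, g.j_emp]

include g in
theorem j_app {x κ B ξ : M} (hx : IsFun x κ B) (hξ : ξ ∈ κ) : app (g.j x) (g.j ξ) = g.j (app x ξ) := by
  have h1 : opair ξ (app x ξ) ∈ x := ((hx.ap hξ).2 _).2 rfl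
  have h2 := ((j_isFun g hx).ap (g.j_mem_j.2 hξ)).2 (g.j (app x ξ))
  rw [← g.j_opair, g.j_mem_j] at h2
  exact (h2.1 h1).symm

include g in
theorem j_two {x κ : M} (hx : x ∈ E0 κ) : ∀ ξ : N, ξ ∈ g.j κ → Two (app (g.j x) ξ) := by
  intro ξ hξ
  obtain ⟨ξ, hξ', rfl⟩ := g.mem_j.1 hξ
  rw [mem_E0] at hx
  rw [j_app g hx.1 hξ']
  rcases hx.2 ξ hξ' with h | h
  · left; rw [h, g.j_emp]
  · right; rw [h, j_o1 g]

include g in
/-- the set of ground model functions is closed -/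
theorem closed_E0 {κ : M} (hκ : IsReg κ) (hω : om M ∈ κ) : ClosedIn (g.j κ) (g.j (E0 κ)) := by
  have hs : ¬ Le κ (prodS (Co M) (sing (emp : M))) := fun h => hκ.init _ hω (h.trans Q_le)
  have hfun : ∀ x : N, x ∈ g.j (E0 κ) → IsFun x (g.j κ) (g.j κ) := by
    intro x hx
    obtain ⟨x, hx', rfl⟩ := g.mem_j.1 hx
    exact j_isFun g (mem_E0.1 hx').1
  refine ⟨hfun, fun x hx h => ?_⟩
  obtain ⟨Y, hY, hY'⟩ := choice (R := fun a y => y ∈ g.j (E0 κ) ∧ Agree x y a) (by fun_prop) (g.j κ) h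
  obtain ⟨Z, hZ, hZ'⟩ := approx g hκ hs hY (fun a ha => (hY' a ha).1)
  have hstar : ∀ ξ η : M, opair ξ η ∈ sepS (prodS κ κ) (fun w => ∃ a y : M, opair a y ∈ Z ∧ fst w ∈ a ∧ w ∈ y) ↔
      opair (g.j ξ) (g.j η) ∈ x := by
    intro ξ η
    rw [mem_sepS (by fun_prop), fst_opair, opair_mem_prodS]
    constructor
    · rintro ⟨_, a, y, h1, h2, h3⟩
      obtain ⟨ha, _, hYa⟩ := hZ a y h1
      have h4 := (hY' (g.j a) (g.j_mem_j.2 ha)).2 (g.j ξ) (g.j η) (g.j_mem_j.2 h2)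
      rw [hYa, app_iff, app_iff, ← g.j_opair, g.j_mem_j, g.j_opair] at h4
      exact h4.2 h3
    · intro h1
      have h2 := hx.mem h1
      rw [g.j_mem_j, g.j_mem_j] at h2
      obtain ⟨a, y, h3, h4⟩ := hZ' ξ h2.1
      obtain ⟨ha, _, hYa⟩ := hZ a y h4
      have h5 := (hY' (g.j a) (g.j_mem_j.2 ha)).2 (g.j ξ) (g.j η) (g.j_mem_j.2 h3)
      rw [hYa, app_iff, app_iff, ← g.j_opair, g.j_mem_j, g.j_opair] at h5
      exact ⟨h2, a, y, h4, h3, h5.1 h1⟩
  set x0 : M := sepS (prodS κ κ) (fun w => ∃ a y : M, opair a y ∈ Z ∧ fst w ∈ a ∧ w ∈ y) with hx0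
  have hval : ∀ ξ : M, ξ ∈ κ → ∃ η : M, (∀ z : M, opair ξ z ∈ x0 ↔ z = η) ∧ Two η := by
    intro ξ hξ
    obtain ⟨h1, h2⟩ := hx.ap (g.j_mem_j.2 hξ)
    obtain ⟨η, _, hη⟩ := g.mem_j.1 h1
    rw [hη] at h2
    have h3 : ∀ z : M, opair ξ z ∈ x0 ↔ z = η := by
      intro z
      rw [hstar, h2]
      exact ⟨fun h => g.inj h, fun h => by rw [h]⟩
    refine ⟨η, h3, ?_⟩
    obtain ⟨_, a, y, h4, h5, h6⟩ := (mem_sepS (by fun_prop)).1 ((h3 η).2 rfl)
    have h7 := mem_E0.1 (hZ a y h4).2.1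
    rw [((h7.1.ap hξ).2 η).1 h6]
    exact h7.2 ξ hξ
  have hx0E : x0 ∈ E0 κ := by
    have hf : IsFun x0 κ κ := by
      rw [isFun_iff]
      constructor
      · intro p hp
        obtain ⟨a, b, ha, hb, hab⟩ := mem_prodS.1 ((mem_sepS (by fun_prop)).1 hp).1
        exact ⟨a, b, ha, hb, hab⟩
      · intro ξ hξ
        obtain ⟨η, h1, _⟩ := hval ξ hξ
        exact ⟨η, h1⟩
    rw [mem_E0]
    refine ⟨hf, fun ξ hξ => ?_⟩
    obtain ⟨η, h1, h2⟩ := hval ξ hξ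
    rw [(h1 _).1 (((hf.ap hξ).2 _).2 rfl)]; exact h2
  have : x = g.j x0 := by
    apply ext'
    intro p
    constructor
    · intro hp
      obtain ⟨u, v, hu, hv, rfl⟩ := (isFun_iff.1 hx).1 p hp
      obtain ⟨u, _, rfl⟩ := g.mem_j.1 hu
      obtain ⟨v, _, rfl⟩ := g.mem_j.1 hv
      rw [← g.j_opair, g.j_mem_j, hstar]; exact hp
    · intro hp
      obtain ⟨w, hw, rfl⟩ := g.mem_j.1 hp
      obtain ⟨a, b, _, _, rfl⟩ := mem_prodS.1 ((mem_sepS (by fun_prop)).1 hw).1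
      rw [g.j_opair]; exact (hstar a b).1 hw
  rw [this, g.j_mem_j]; exact hx0E

include g in
/-- there are more ground model functions than functions from smaller ordinals -/
theorem big_E0 {κ : M} (hK : IsK κ) {S : N} (hS : IsSeqs (g.j κ) S) : ¬ Le (g.j (E0 κ)) S := by
  intro hle
  have hκ := hK.reg
  have hs : ¬ Le κ (prodS (Co M) (sing (emp : M))) := fun h => hκ.init _ hK.unc (h.trans Q_le)
  have hκN := reg_j g hκ hs
  have hinf : Le (om M) (pow (om M)) := le_pow_self _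
  have h1 : Le S (g.j (pow (om M))) := by
    refine (Le.of_sub (fun s hs' => ?_)).trans (union_le (I := g.j κ) (F := fun b => pow (prodS b b)) (by fun_prop)
      (C := g.j (pow (om M))) (by have := g.j_le hinf; rwa [g.j_om] at this) (g.j_le hK.le) (fun b hb => ?_))
    · obtain ⟨α, hα, hf⟩ := (hS s).1 hs'
      obtain ⟨β, hβ, hβ'⟩ := bdd_of_small hκN (S := repS α (app s)) (fun z hz => by
        obtain ⟨x, hx, rfl⟩ := (mem_repS (by fun_prop)).1 hz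
        exact (hf.ap hx).1) (fun h => hκN.init α hα (h.trans (le_repS (by fun_prop))))
      refine mem_sU.2 ⟨_, (mem_repS (by fun_prop)).2 ⟨cup α β, ord_cup_mem hκN.ord hα hβ, rfl⟩, mem_pow.2 (fun p hp => ?_)⟩
      obtain ⟨x, y, hx, hy, rfl⟩ := (isFun_iff.1 hf).1 p hp
      have h2 := ((hf.ap hx).2 _).1 hp
      exact opair_mem_prodS.2 ⟨mem_cup.2 (Or.inl hx), mem_cup.2 (Or.inr (hβ' _ ((mem_repS (by fun_prop)).2 ⟨x, hx, h2⟩)))⟩
    · obtain ⟨b, hb', rfl⟩ := g.mem_j.1 hb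
      show Le (pow (prodS (g.j b) (g.j b))) (g.j (pow (om M)))
      rw [← g.j_prodS]
      exact g.pow_le_all.trans (g.j_le (hK.small _ (hκ.prod hs (hκ.prod (hκ.init b hb') (hκ.init b hb')))))
  have h2 := ground_le g hinf (Q_le.trans hinf) (hle.trans h1)
  exact hK.big ((pow_le_E0 hκ).trans h2)

omit [ZFCM M] [ZFCM N] in
theorem neg2_of_neg1 {N : Type} [Membership N N] (h : NegQ1 N) : NegQ2 N := by
  obtain ⟨κ, D, E, F, hyp, h⟩ := h
  refine ⟨κ, D, E, F, hyp, fun X S E' hX hS hle hE' hp => ?_⟩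
  obtain ⟨x0, h1, h2, h3⟩ := h X S hX hS hle
  apply h3
  obtain ⟨T, hT⟩ := hp.2 x0 ((hE' x0).2 ⟨h1, h2⟩)
  refine ⟨T, fun m a hm => ?_⟩
  obtain ⟨x, hx, h4⟩ := hT m a hm
  exact ⟨x, ((hE' x).1 hx).1, h4⟩

include g in
/-- the negative answers in the extension -/
theorem neg_ext : NegQ1 N := by
  obtain ⟨κ, hK⟩ := exists_K (M := M)
  have hκ := hK.reg
  have hs : ¬ Le κ (prodS (Co M) (sing (emp : M))) := fun h => hκ.init _ hK.unc (h.trans Q_le)
  have hκN := reg_j g hκ hs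
  have hωN : om N ∈ g.j κ := by rw [← g.j_om, g.j_mem_j]; exact hK.unc
  obtain ⟨D, F, hyp⟩ := hyp_DD hκN hωN (closed_E0 g hκ hK.unc) (fun x hx => by
    obtain ⟨x, hx', rfl⟩ := g.mem_j.1 hx
    exact j_two g hx')
  obtain ⟨f, hf, hnew⟩ := exists_new g
  refine ⟨g.j κ, D, g.j (E0 κ), F, hyp, fun X S hX hS hle => ?_⟩
  by_contra hcon
  push Not at hcon
  apply big_E0 g hK hS
  refine (Le.of_sub (fun x hx => ?_)).trans hle
  by_contra h2
  exact no_win g hκ hK.unc Q_le (fun x hx => (mem_E0.1 hx).1) hf hnew x (hcon x hx h2)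

end

/-- every countable model of ZFC has an extension in which both questions have a negative answer -/
theorem main_countable (M : Type) [Membership M M] [Countable M] (h : ZFCModel M) :
    ∃ (N : Type) (_ : Membership N N), ZFCModel N ∧ NegQ1 N ∧ NegQ2 N ∧ ∃ ι : M → N, OrdEndExt ι := by
  have : ZFModel M := h.1
  have hM : ZFCM M := { ac := h.2 }
  obtain ⟨N, mN, zN, ⟨g⟩⟩ := exists_genExt (M := M) (Co M) (sing emp) ⟨emp, emp_mem_Lv isReg_om⟩ ⟨emp, mem_sing.2 rfl⟩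
  have hN : ZFCM N := g.zfc
  have h1 := neg_ext g
  exact ⟨N, mN, ⟨zN, hN.ac⟩, h1, neg2_of_neg1 h1, g.j, g.ordEndExt⟩

end Pool.Agent.Helper79.Game
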