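import Pool.Agent.Helper79.Game.Baire

/-!
# Player II has no winning strategy on the set of ground model functions
-/

namespace Pool.Agent.Helper79.Game

open Pool.Agent.Helper79.ZF Pool.Agent.Helper79.Kurepa

section
variable {M N : Type} [Membership M M] [Membership N N] [ZFCM M] [ZFCM N] {P R : M} (g : GenExt M N P R)

include g

theorem j_agree {x y z : M} : Agree (g.j x) (g.j y) (g.j z) ↔ Agree x y z := by
  unfold Agree
  simp only [app_iff]
  constructor
  · intro h ξ η hξ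
    have := h (g.j ξ) (g.j η) (g.j_mem_j.2 hξ)
    rwa [← g.j_opair, g.j_mem_j, g.j_mem_j] at this
  · intro h ξ η hξ
    obtain ⟨ξ, hξ', rfl⟩ := g.mem_j.1 hξ
    have key : ∀ x : M, opair (g.j ξ) η ∈ g.j x → ∃ η' : M, η = g.j η' ∧ opair ξ η' ∈ x := by
      intro x hx
      obtain ⟨a, b, h1, h2, h3⟩ := g.opair_mem_j hx
      rw [← g.inj h1] at h3
      exact ⟨b, h2, h3⟩
    constructor
    · intro h1
      obtain ⟨η, rfl, h2⟩ := key x h1
      rw [← g.j_opair, g.j_mem_j]; exact (h ξ η hξ').1 h2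
    · intro h1
      obtain ⟨η, rfl, h2⟩ := key y h1
      rw [← g.j_opair, g.j_mem_j]; exact (h ξ η hξ').2 h2

theorem j_isFun {f A B : M} (h : IsFun f A B) : IsFun (g.j f) (g.j A) (g.j B) := by
  rw [isFun_iff] at h ⊢
  constructor
  · intro p hp
    obtain ⟨p, hp', rfl⟩ := g.mem_j.1 hp
    obtain ⟨x, y, hx, hy, rfl⟩ := h.1 p hp'
    exact ⟨g.j x, g.j y, g.j_mem_j.2 hx, g.j_mem_j.2 hy, g.j_opair x y⟩
  · intro x hx
    obtain ⟨x, hx', rfl⟩ := g.mem_j.1 hx
    obtain ⟨y, hy⟩ := h.2 x hx'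
    refine ⟨g.j y, fun z => ?_⟩
    constructor
    · intro hz
      obtain ⟨a, b, h1, rfl, h3⟩ := g.opair_mem_j hz
      rw [← g.inj h1] at h3
      rw [(hy b).1 h3]
    · rintro rfl
      rw [← g.j_opair, g.j_mem_j]
      exact (hy y).2 rfl

/-- finite sets of natural numbers are in the ground model -/
theorem fin_ground {n v : N} (hn : n ∈ om N) (hv : MSub v n) : v ∈ g.j (pow (om M)) := by
  have key : ∀ n : N, n ∈ om N → ∀ v : N, MSub v n → v ∈ g.j (pow (om M)) := by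
    intro n hn
    refine om_induction (R := fun n => ∀ v : N, MSub v n → v ∈ g.j (pow (om M))) (by fun_prop) ?_ ?_ hn
    · intro v hv
      have : v = g.j emp := by
        rw [g.j_emp]
        apply ext'
        intro z
        exact ⟨fun h => hv z h, fun h => absurd h (not_mem_emp z)⟩
      rw [this, g.j_mem_j, mem_pow]
      exact fun z h => absurd h (not_mem_emp z)
    · intro n hn ih v hv
      have h1 := ih (capS v n) (fun z hz => (mem_capS.1 hz).2)
      obtain ⟨v0, hv0, h2⟩ := g.mem_j.1 h1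
      rw [← g.j_om] at hn
      obtain ⟨n, hn', rfl⟩ := g.mem_j.1 hn
      by_cases hnv : g.j n ∈ v
      · have : v = g.j (cup v0 (sing n)) := by
          apply ext'
          intro z
          constructor
          · intro hz
            rcases mem_suc.1 (hv z hz) with h3 | h3
            · have h4 : z ∈ g.j v0 := by rw [← h2]; exact mem_capS.2 ⟨hz, h3⟩
              obtain ⟨w, hw, rfl⟩ := g.mem_j.1 h4
              rw [g.j_mem_j, mem_cup]; exact Or.inl hw
            · rw [h3, g.j_mem_j, mem_cup, mem_sing]; exact Or.inr rfl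
          · intro hz
            obtain ⟨w, hw, rfl⟩ := g.mem_j.1 hz
            rcases mem_cup.1 hw with h3 | h3
            · have h4 : g.j w ∈ g.j v0 := g.j_mem_j.2 h3
              rw [← h2] at h4
              exact (mem_capS.1 h4).1
            · rw [mem_sing.1 h3]; exact hnv
        rw [this, g.j_mem_j, mem_pow]
        intro z hz
        rcases mem_cup.1 hz with h3 | h3
        · exact mem_pow.1 hv0 z h3
        · rw [mem_sing.1 h3]; exact hn'
      · have : v = g.j v0 := by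
          rw [← h2]
          apply ext'
          intro z
          rw [mem_capS]
          constructor
          · intro hz
            refine ⟨hz, ?_⟩
            rcases mem_suc.1 (hv z hz) with h3 | h3
            · exact h3
            · rw [h3] at hz; exact absurd hz hnv
          · exact fun h => h.1
        rw [this, g.j_mem_j]; exact hv0
  exact key n hn v hv

/-- changing a new real below `n` gives a new real -/
theorem new_mod {f : N} (hf : MSub f (om N)) (hnew : ∀ f0 : M, f ≠ g.j f0) {n s : M} (hn : n ∈ om M) (hs : MSub s n) :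
    ∃ f' : N, MSub f' (om N) ∧ capS f' (g.j n) = g.j s ∧ ∀ f0 : M, f' ≠ g.j f0 := by
  have hjs : MSub (g.j s) (g.j n) := g.j_MSub.2 hs
  have hjn : g.j n ∈ om N := by rw [← g.j_om, g.j_mem_j]; exact hn
  refine ⟨cup (sepS f (fun k => ¬ k ∈ g.j n)) (g.j s), ?_, ?_, ?_⟩
  · intro z hz
    rcases mem_cup.1 hz with h | h
    · exact hf z ((mem_sepS (by fun_prop)).1 h).1
    · exact om_tr hjn (hjs z h)
  · apply ext'
    intro z
    rw [mem_capS, mem_cup, mem_sepS (by fun_prop)]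
    constructor
    · rintro ⟨⟨h1, h2⟩ | h1, h3⟩
      · exact absurd h3 h2
      · exact h1
    · intro h1; exact ⟨Or.inr h1, hjs z h1⟩
  · intro f0 h0
    have h1 := fin_ground g hjn (v := capS f (g.j n)) (fun z hz => (mem_capS.1 hz).2)
    obtain ⟨v0, _, hv0⟩ := g.mem_j.1 h1
    apply hnew (cup (sepS f0 (fun k => ¬ k ∈ n)) v0)
    apply ext'
    intro z
    constructor
    · intro hz
      by_cases h2 : z ∈ g.j n
      · have h3 : z ∈ g.j v0 := by rw [← hv0]; exact mem_capS.2 ⟨hz, h2⟩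
        obtain ⟨w, hw, rfl⟩ := g.mem_j.1 h3
        rw [g.j_mem_j, mem_cup]; exact Or.inr hw
      · have h3 : z ∈ g.j f0 := by
          rw [← h0, mem_cup, mem_sepS (by fun_prop)]; exact Or.inl ⟨hz, h2⟩
        obtain ⟨w, hw, rfl⟩ := g.mem_j.1 h3
        rw [g.j_mem_j, mem_cup, mem_sepS (by fun_prop)]
        exact Or.inl ⟨hw, fun h4 => h2 (g.j_mem_j.2 h4)⟩
    · intro hz
      obtain ⟨w, hw, rfl⟩ := g.mem_j.1 hz
      rcases mem_cup.1 hw with h3 | h3
      · rw [mem_sepS (by fun_prop)] at h3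
        have h4 : g.j w ∈ g.j f0 := g.j_mem_j.2 h3.1
        rw [← h0, mem_cup, mem_sepS (by fun_prop)] at h4
        rcases h4 with h4 | h4
        · exact h4.1
        · exact absurd (g.j_mem_j.1 (hjs _ h4)) h3.2
      · have h4 : g.j w ∈ g.j v0 := g.j_mem_j.2 h3
        rw [← hv0] at h4
        exact (mem_capS.1 h4).1

/-- there is no continuous injection of `2^ω` into the functions of the ground model -/
theorem no_win {κ E0 : M} (hκ : IsReg κ) (hω : om M ∈ κ) (hQ : Le (prodS P R) (om M)) (hE0 : ∀ x : M, x ∈ E0 → IsFun x κ κ)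
    {f : N} (hf : MSub f (om N)) (hnew : ∀ f0 : M, f ≠ g.j f0) (x0 : N) : ¬ WinII (g.j κ) (g.j E0) x0 := by
  rintro ⟨S, hS⟩
  have hs : ¬ Le κ (prodS P R) := fun h => hκ.init _ hω (h.trans hQ)
  have hκN := reg_j g hκ hs
  have hωN : om N ∈ g.j κ := by rw [← g.j_om, g.j_mem_j]; exact hω
  have hEN : ∀ x : N, x ∈ g.j E0 → IsFun x (g.j κ) (g.j κ) := by
    intro x hx
    obtain ⟨x, hx', rfl⟩ := g.mem_j.1 hx
    exact j_isFun g (hE0 x hx')
  obtain ⟨X, B, hX, hB, hB1, hX1, hXB⟩ := run hκN hωN hEN (x0 := x0) (S := S) hS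
  have hBord : ∀ n : N, n ∈ om N → IsOrd (B n) := fun n hn => ord_mem hκN.ord (hB1 n hn).1
  obtain ⟨γ, hγ⟩ := g.ords (sU (repS (om N) B)) (ord_sU (fun y hy => by
    obtain ⟨n, hn, rfl⟩ := (mem_repS hB).1 hy
    exact hBord n hn))
  have hmemγ : ∀ z : N, z ∈ g.j γ ↔ ∃ n : N, n ∈ om N ∧ z ∈ B n := by
    intro z
    rw [hγ, mem_sU]
    constructor
    · rintro ⟨w, hw, hz⟩
      obtain ⟨n, hn, rfl⟩ := (mem_repS hB).1 hw
      exact ⟨n, hn, hz⟩
    · rintro ⟨n, hn, hz⟩; exact ⟨_, (mem_repS hB).2 ⟨n, hn, rfl⟩, hz⟩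
  obtain ⟨τ, h1, h2⟩ := name_set g (lam (g.j (pow (om M))) X) (prodS (pow (om M)) E0)
  have hom : ∀ n : M, n ∈ om M → g.j n ∈ om N := fun n hn => by rw [← g.j_om, g.j_mem_j]; exact hn
  have hom' : ∀ n : N, n ∈ om N → ∃ n' : M, n' ∈ om M ∧ n = g.j n' := fun n hn => by
    rw [← g.j_om] at hn; exact g.mem_j.1 hn
  have hsubN : ∀ h : M, MSub h (om M) → MSub (g.j h) (om N) := fun h hh => by
    rw [← g.j_om]; exact g.j_MSub.2 hh
  have h3 : ∀ z a y : M, g.j z ∈ g.G → opair z (opair a y) ∈ τ → MSub a (om M) ∧ y ∈ E0 ∧ X (g.j a) = g.j y := by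
    intro z a y hz h4
    have h5 := opair_mem_prodS.1 (h1 _ _ h4).2
    have h6 := (h2 _ (h1 _ _ h4).2).2 ⟨z, hz, h4⟩
    rw [g.j_opair, mem_lam hX] at h6
    obtain ⟨w, _, hw⟩ := h6
    rw [opair_inj] at hw
    exact ⟨mem_pow.1 h5.1, h5.2, by rw [hw.2, hw.1]⟩
  let F : M → M → Prop := fun z f => ∃ x : M, opair z (opair f x) ∈ τ
  have hF : DefP M (fun p : M × M => F p.1 p.2) := by simp only [F]; fun_prop
  have hFz : ∀ z : M, DefP M (F z) := fun z => by simp only [F]; fun_prop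
  -- some condition of the filter decides the function on a somewhere dense set
  have hdense : ∃ z : M, g.j z ∈ g.G ∧ ∃ n s : M, n ∈ om M ∧ MSub s n ∧ ∀ m t : M, m ∈ om M → MSub n m → MSub t m →
      capS t n = s → ¬ Miss (F z) m t := by
    by_contra hcon
    push Not at hcon
    let nd : M → Prop := fun z => ∀ n s : M, n ∈ om M → MSub s n → ∃ m t : M, m ∈ om M ∧ MSub n m ∧ MSub t m ∧ capS t n = s ∧ Miss (F z) m t
    have hnd : DefP M nd := by
      simp only [nd]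
      apply DefP.all; apply DefP.all
      apply DefP.imp (by fun_prop)
      apply DefP.imp (by fun_prop)
      apply DefP.ex; apply DefP.ex
      apply DefP.and (by fun_prop)
      apply DefP.and (by fun_prop)
      apply DefP.and (by fun_prop)
      apply DefP.and (by fun_prop)
      apply Miss_def
      · exact DefP_comp hF (f := fun p : ((((M × M) × M) × M) × M) × M => (p.1.1.1.1.1, p.2)) (by fun_prop)
      · fun_prop
      · fun_prop
    obtain ⟨f1, hf1, hf1'⟩ := baire (I := sepS (prodS P R) nd) ((Le.of_sub (fun z hz => ((mem_sepS hnd).1 hz).1)).trans hQ) hF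
      (fun z n s hz hn hs => ((mem_sepS hnd).1 hz).2 n s hn hs)
    have h4 := hX1 (g.j f1) (hsubN f1 hf1)
    obtain ⟨x, hx, hx'⟩ := g.mem_j.1 h4
    have h5 := (h2 _ (opair_mem_prodS.2 ⟨mem_pow.2 hf1, hx⟩)).1 (by
      rw [g.j_opair, mem_lam hX]
      exact ⟨g.j f1, g.j_mem_j.2 (mem_pow.2 hf1), by rw [hx']⟩)
    obtain ⟨z, hz, hz'⟩ := h5
    exact hf1' z ((mem_sepS hnd).2 ⟨(h1 _ _ hz').1, fun n s hn hs => hcon z hz n s hn hs⟩) ⟨x, hz'⟩
  obtain ⟨z, hz, n, s, hn, hsn, hden⟩ := hdense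
  obtain ⟨f', hf', hf's, hf'new⟩ := new_mod g hf hnew hn hsn
  obtain ⟨x', hx', hx''⟩ := g.mem_j.1 (hX1 f' hf')
  apply hf'new (sepS (om M) (fun i => ∀ ζ : M, ζ ∈ γ → ∃ h y : M, opair z (opair h y) ∈ τ ∧ i ∈ h ∧ Agree y x' ζ))
  apply ext'
  intro k
  constructor
  · intro hk
    obtain ⟨i, hi, rfl⟩ := hom' k (hf' k hk)
    rw [g.j_mem_j, mem_sepS (by fun_prop)]
    refine ⟨hi, fun ζ hζ => ?_⟩
    obtain ⟨n', hn', hζn⟩ := (hmemγ _).1 (g.j_mem_j.2 hζ)
    obtain ⟨n', hn'', rfl⟩ := hom' n' hn'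
    have hm1 : cup n (suc i) ∈ om M := ord_cup_mem ord_om hn (suc_mem_om hi)
    have hm2 : cup (cup n (suc i)) n' ∈ om M := ord_cup_mem ord_om hm1 hn''
    obtain ⟨t0, _, ht0⟩ := g.mem_j.1 (fin_ground g (hom _ hm2) (v := capS f' (g.j (cup (cup n (suc i)) n'))) (fun z hz => (mem_capS.1 hz).2))
    have hmemt : ∀ l : M, l ∈ t0 ↔ g.j l ∈ f' ∧ l ∈ cup (cup n (suc i)) n' := by
      intro l
      rw [← g.j_mem_j (x := l) (y := t0), ← ht0, mem_capS, g.j_mem_j]
    have h4 := hden (cup (cup n (suc i)) n') t0 hm2 (fun z hz => mem_cup.2 (Or.inl (mem_cup.2 (Or.inl hz))))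
      (fun l hl => ((hmemt l).1 hl).2) (by
        apply ext'
        intro l
        rw [mem_capS, hmemt, ← g.j_mem_j (x := l) (y := s), ← hf's, mem_capS, g.j_mem_j]
        exact ⟨fun h => ⟨h.1.1, h.2⟩, fun h => ⟨⟨h.1, mem_cup.2 (Or.inl (mem_cup.2 (Or.inl h.2)))⟩, h.2⟩⟩)
    unfold Miss at h4
    push Not at h4
    obtain ⟨h, hh, hht, y, hy⟩ := h4
    obtain ⟨_, hyE, hXh⟩ := h3 z h y hz hy
    have hag : Agree (X (g.j h)) (X f') (B (g.j (cup (cup n (suc i)) n'))) := by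
      rw [hXB _ _ _ (hsubN h hh) hf' (hom _ hm2)]
      intro l hl
      obtain ⟨l, hl', rfl⟩ := g.mem_j.1 hl
      rw [g.j_mem_j]
      have h5 : l ∈ h ↔ l ∈ t0 := by
        rw [← hht, mem_capS]; exact ⟨fun h6 => ⟨h6, hl'⟩, fun h6 => h6.1⟩
      rw [h5, hmemt]
      exact ⟨fun h6 => h6.1, fun h6 => ⟨h6, hl'⟩⟩
    refine ⟨h, y, hy, ?_, ?_⟩
    · have h5 : i ∈ t0 := (hmemt i).2 ⟨hk, mem_cup.2 (Or.inl (mem_cup.2 (Or.inr (mem_suc.2 (Or.inr rfl)))))⟩
      rw [← hht] at h5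
      exact (mem_capS.1 h5).1
    · rw [← j_agree g, ← hXh, ← hx'']
      apply hag.mono
      have h6 : g.j ζ ∈ B (g.j (cup (cup n (suc i)) n')) := by
        have hmo := om_ord hm2
        rcases ord_trich n' (cup (cup n (suc i)) n') (om_ord hn'') hmo with h7 | h7 | h7
        · exact (hBord _ (hom _ hm2)).1 _ _ ((hB1 _ (hom _ hm2)).2 (g.j n') (g.j_mem_j.2 h7)) hζn
        · rw [← h7]; exact hζn
        · exact absurd (mem_cup.2 (Or.inr h7)) (mem_irrefl _)
      exact ord_sub (hBord _ (hom _ hm2)) h6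
  · intro hk
    obtain ⟨i, hi, rfl⟩ := g.mem_j.1 hk
    rw [mem_sepS (by fun_prop)] at hi
    have hji := hom i hi.1
    have hsi := suc_mem_om hji
    have h4 : B (suc (g.j i)) ∈ g.j γ := (hmemγ _).2 ⟨_, suc_mem_om hsi, (hB1 _ (suc_mem_om hsi)).2 _ (mem_suc.2 (Or.inr rfl))⟩
    obtain ⟨ζ, hζ, hζ'⟩ := g.mem_j.1 h4
    obtain ⟨h, y, hy, hih, hag⟩ := hi.2 ζ hζ
    obtain ⟨hh, hyE, hXh⟩ := h3 z h y hz hy
    rw [← j_agree g, ← hXh, ← hx'', ← hζ', hXB _ _ _ (hsubN h hh) hf' hsi] at hag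
    exact (hag (g.j i) (mem_suc.2 (Or.inr rfl))).1 (g.j_mem_j.2 hih)

end

end Pool.Agent.Helper79.Game
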