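import Pool.Agent.Helper79.Game.Basic
import Pool.Agent.Helper79.Game.Kappa

/-!
# A tree of runs against a strategy of Player II
-/

namespace Pool.Agent.Helper79.Game

open Pool.Agent.Helper79.ZF Pool.Agent.Helper79.Kurepa

section
variable {N : Type} [Membership N N] [ZFCM N]
variable {α β γ : Type} [Ctx N α] [Ctx N β] [Ctx N γ]

/-- the number of elements of `f` below `n` -/
noncomputable def cnt (f n : N) : N := memRec (fun n h => repS (sepS n (fun k => k ∈ f)) (fun k => app h k)) n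

@[fun_prop]
theorem cnt_def {f g : α → N} (hf : DefF N f) (hg : DefF N g) : DefF N (fun a => cnt (f a) (g a)) := by
  unfold cnt; fun_prop

theorem mem_cnt {f n i : N} : i ∈ cnt f n ↔ ∃ k : N, k ∈ n ∧ k ∈ f ∧ i = cnt f k := by
  have h := memRec_eq (G := fun n h => repS (sepS n (fun k => k ∈ f)) (fun k => app h k)) (by fun_prop) n
  have h' : cnt f n = repS (sepS n (fun k => k ∈ f)) (fun k => app (lam n (cnt f)) k) := h
  rw [h', mem_repS (by fun_prop)]
  constructor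
  · rintro ⟨k, hk, rfl⟩
    rw [mem_sepS (by fun_prop)] at hk
    exact ⟨k, hk.1, hk.2, app_lam (by fun_prop) hk.1⟩
  · rintro ⟨k, h1, h2, rfl⟩
    exact ⟨k, (mem_sepS (by fun_prop)).2 ⟨h1, h2⟩, (app_lam (by fun_prop) h1).symm⟩

theorem cnt_emp {f : N} : cnt f emp = emp := by
  apply ext'
  intro i
  rw [mem_cnt]
  constructor
  · rintro ⟨k, h, _⟩; exact absurd h (not_mem_emp k)
  · intro h; exact absurd h (not_mem_emp i)

theorem mem_cnt_suc {f n i : N} : i ∈ cnt f (suc n) ↔ (i ∈ cnt f n ∨ (n ∈ f ∧ i = cnt f n)) := by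
  rw [mem_cnt, mem_cnt]
  constructor
  · rintro ⟨k, h1, h2, h3⟩
    rcases mem_suc.1 h1 with h | h
    · exact Or.inl ⟨k, h, h2, h3⟩
    · rw [h] at h2 h3; exact Or.inr ⟨h2, h3⟩
  · rintro (⟨k, h1, h2, h3⟩ | ⟨h2, h3⟩)
    · exact ⟨k, mem_suc.2 (Or.inl h1), h2, h3⟩
    · exact ⟨n, mem_suc.2 (Or.inr rfl), h2, h3⟩

theorem cnt_mem_om {f n : N} (hn : n ∈ om N) : cnt f n ∈ om N := by
  refine om_induction (R := fun n => cnt f n ∈ om N) (by fun_prop) (by rw [cnt_emp]; exact zero_mem_om) ?_ hn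
  intro n hn ih
  by_cases h : n ∈ f
  · have : cnt f (suc n) = suc (cnt f n) := by
      apply ext'
      intro i
      rw [mem_cnt_suc, mem_suc]
      simp [h]
    rw [this]; exact suc_mem_om ih
  · have : cnt f (suc n) = cnt f n := by
      apply ext'
      intro i
      rw [mem_cnt_suc]
      simp [h]
    rw [this]; exact ih

theorem cnt_congr {f g n : N} (hn : n ∈ om N) : (∀ k : N, k ∈ n → (k ∈ f ↔ k ∈ g)) → cnt f n = cnt g n := by
  refine om_induction (R := fun n => (∀ k : N, k ∈ n → (k ∈ f ↔ k ∈ g)) → cnt f n = cnt g n) (by fun_prop)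
    (fun _ => by rw [cnt_emp, cnt_emp]) ?_ hn
  intro n hn ih h
  have h1 := ih (fun k hk => h k (mem_suc.2 (Or.inl hk)))
  have h2 := h n (mem_suc.2 (Or.inr rfl))
  apply ext'
  intro i
  rw [mem_cnt_suc, mem_cnt_suc, h1, h2]

/-- the moves `h(n)`, `n ∈ f`, as an increasing sequence -/
noncomputable def pos (h f : N) : N := repS f (fun n => opair (cnt f n) (app h n))

@[fun_prop]
theorem pos_def {f g : α → N} (hf : DefF N f) (hg : DefF N g) : DefF N (fun a => pos (f a) (g a)) := by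
  unfold pos; fun_prop

theorem mem_pos {h f p : N} : p ∈ pos h f ↔ ∃ n : N, n ∈ f ∧ p = opair (cnt f n) (app h n) := by
  unfold pos
  rw [mem_repS (by fun_prop)]

theorem om_ord {n : N} (hn : n ∈ om N) : IsOrd n := ord_mem ord_om hn

theorem om_tr {n k : N} (hn : n ∈ om N) (hk : k ∈ n) : k ∈ om N := ord_om.1 n k hn hk

theorem cnt_lt {f k n : N} (hk : k ∈ n) (hf : k ∈ f) : cnt f k ∈ cnt f n := mem_cnt.2 ⟨k, hk, hf, rfl⟩

theorem cnt_lt_iff {f k n : N} (hk : k ∈ om N) (hn : n ∈ om N) (hkf : k ∈ f) (hnf : n ∈ f) : cnt f k ∈ cnt f n ↔ k ∈ n := by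
  refine ⟨fun h => ?_, fun h => cnt_lt h hkf⟩
  rcases ord_trich k n (om_ord hk) (om_ord hn) with h1 | h1 | h1
  · exact h1
  · rw [h1] at h; exact absurd h (mem_irrefl _)
  · exact absurd (cnt_lt h1 hnf) (mem_asymm h)

theorem cnt_inj {f k n : N} (hk : k ∈ om N) (hn : n ∈ om N) (hkf : k ∈ f) (hnf : n ∈ f) (h : cnt f k = cnt f n) : k = n := by
  rcases ord_trich k n (om_ord hk) (om_ord hn) with h1 | h1 | h1
  · have := cnt_lt h1 hkf
    rw [h] at this; exact absurd this (mem_irrefl _)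
  · exact h1
  · have := cnt_lt h1 hnf
    rw [h] at this; exact absurd this (mem_irrefl _)

/-- the length of the sequence -/
theorem cnt_om (f : N) : cnt f (om N) ∈ om N ∨ cnt f (om N) = om N := by
  have h1 : MSub (cnt f (om N)) (om N) := by
    intro i hi
    obtain ⟨k, hk, _, rfl⟩ := mem_cnt.1 hi
    exact cnt_mem_om hk
  have h2 : IsOrd (cnt f (om N)) := by
    refine ⟨fun y z hy hz => ?_, fun y hy => (om_ord (h1 y hy)).1⟩
    obtain ⟨k, hk, _, rfl⟩ := mem_cnt.1 hy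
    obtain ⟨l, hl, hlf, rfl⟩ := mem_cnt.1 hz
    exact mem_cnt.2 ⟨l, om_tr hk hl, hlf, rfl⟩
  rcases ord_cases h2 ord_om with h | h
  · exact Or.inl h
  · exact Or.inr (ext' (fun z => ⟨h1 z, h z⟩))

variable {κ E x0 S : N}

/-- `h` enumerates ordinals below `κ` increasingly on `f` -/
structure Inc (κ h f : N) : Prop where
  sub : MSub f (om N)
  mem : ∀ n : N, n ∈ f → app h n ∈ κ
  lt : ∀ k n : N, k ∈ f → n ∈ f → k ∈ n → app h k ∈ app h n

theorem Inc.mono {h f g : N} (hi : Inc κ h f) (hg : MSub g f) : Inc κ h g :=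
  ⟨fun z hz => hi.sub z (hg z hz), fun n hn => hi.mem n (hg n hn), fun k n hk hn => hi.lt k n (hg k hk) (hg n hn)⟩

theorem moves_pos {h f : N} (hi : Inc κ h f) : Moves κ (cnt f (om N)) (pos h f) := by
  refine ⟨⟨om N, isOmega_iff.2 rfl, cnt_om f⟩, ?_, ?_⟩
  · rw [isFun_iff]
    constructor
    · intro p hp
      obtain ⟨n, hn, rfl⟩ := mem_pos.1 hp
      exact ⟨_, _, cnt_lt (hi.sub n hn) hn, hi.mem n hn, rfl⟩
    · intro i hi'
      obtain ⟨k, hk, hkf, rfl⟩ := mem_cnt.1 hi'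
      refine ⟨app h k, fun z => ?_⟩
      rw [mem_pos]
      constructor
      · rintro ⟨n, hn, h1⟩
        rw [opair_inj] at h1
        rw [h1.2, cnt_inj hk (hi.sub n hn) hkf hn h1.1]
      · rintro rfl; exact ⟨k, hkf, rfl⟩
  · intro i k a b hik h1 h2
    rw [app_iff, mem_pos] at h1 h2
    obtain ⟨n, hn, h1⟩ := h1
    obtain ⟨n', hn', h2⟩ := h2
    rw [opair_inj] at h1 h2
    rw [h1.1, h2.1, cnt_lt_iff (hi.sub n hn) (hi.sub n' hn') hn hn'] at hik
    rw [h1.2, h2.2]
    exact hi.lt n n' hn hn' hik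

theorem capS_emp_of {f n : N} (h : ∀ k : N, k ∈ f → ¬ k ∈ n) : capS f n = emp := by
  apply ext'
  intro z
  rw [mem_capS]
  exact ⟨fun h1 => absurd h1.2 (h z h1.1), fun h1 => absurd h1 (not_mem_emp z)⟩

theorem res_pos {h f n : N} (hi : Inc κ h f) (hn : n ∈ f) : IsRes (pos h (capS f n)) (pos h f) (cnt f n) := by
  have hnω := hi.sub n hn
  have key : ∀ k : N, k ∈ n → cnt (capS f n) k = cnt f k := by
    intro k hk
    apply cnt_congr (om_tr hnω hk)
    intro l hl
    rw [mem_capS]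
    exact ⟨fun h => h.1, fun h => ⟨h, (om_ord hnω).1 k l hk hl⟩⟩
  intro p
  rw [mem_pos, mem_pos]
  constructor
  · rintro ⟨k, hk, rfl⟩
    rw [mem_capS] at hk
    rw [key k hk.2]
    exact ⟨⟨k, hk.1, rfl⟩, cnt f k, app h k, cnt_lt hk.2 hk.1, isPair_iff.2 rfl⟩
  · rintro ⟨⟨k, hk, rfl⟩, i, η, h1, h2⟩
    rw [isPair_iff, opair_inj] at h2
    rw [← h2.1, cnt_lt_iff (hi.sub k hk) hnω hk hn] at h1
    exact ⟨k, mem_capS.2 ⟨hk, h1⟩, by rw [key k h1]⟩

/-- `S` is a winning strategy of Player II -/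
def WinS (κ E x0 S : N) : Prop := ∀ m a : N, Moves κ m a → ∃ x : N, x ∈ E ∧ (∀ z : N, App S a z ↔ z = x) ∧
  ((∀ p : N, ¬ p ∈ a) → x = x0) ∧
  ∀ i α b y : N, i ∈ m → App a i α → IsRes b a i → App S b y → y ≠ x ∧ Agree x y α

/-- the reply of the strategy -/
noncomputable def rp (S h f : N) : N := app S (pos h f)

@[fun_prop]
theorem rp_def {f g k : α → N} (hf : DefF N f) (hg : DefF N g) (hk : DefF N k) : DefF N (fun a => rp (f a) (g a) (k a)) := by
  unfold rp; fun_prop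

theorem rp_spec (hS : WinS κ E x0 S) {h f : N} (hi : Inc κ h f) : rp S h f ∈ E ∧ (∀ z : N, App S (pos h f) z ↔ z = rp S h f) ∧
    ∀ n : N, n ∈ f → rp S h (capS f n) ≠ rp S h f ∧ Agree (rp S h f) (rp S h (capS f n)) (app h n) := by
  have key : ∀ f : N, Inc κ h f → ∀ x : N, (∀ z : N, App S (pos h f) z ↔ z = x) → rp S h f = x := by
    intro f hf x hx
    exact app_eq (app_iff.1 ((hx x).2 rfl)) (fun y' h' => (hx y').1 (app_iff.2 h'))
  obtain ⟨x, hx, h1, _, h3⟩ := hS _ _ (moves_pos hi)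
  rw [key f hi x h1]
  refine ⟨hx, h1, fun n hn => ?_⟩
  have hi' : Inc κ h (capS f n) := hi.mono (fun z hz => (mem_capS.1 hz).1)
  obtain ⟨x', hx', h1', _, _⟩ := hS _ _ (moves_pos hi')
  rw [key _ hi' x' h1']
  apply h3 (cnt f n) (app h n) (pos h (capS f n)) x' (cnt_lt (hi.sub n hn) hn) _ (res_pos hi hn) ((h1' x').2 rfl)
  rw [app_iff, mem_pos]
  exact ⟨n, hn, rfl⟩

/-- the rule for the next ordinal -/
noncomputable def nx (κ S n h : N) : N := leastO (fun b => b ∈ κ ∧ (∀ k : N, k ∈ n → app h k ∈ b) ∧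
  ∀ k u : N, k ∈ n → MSub u k → ¬ Agree (rp S h u) (rp S h (cup u (sing k))) b)

@[fun_prop]
theorem nx_def {f g k l : α → N} (hf : DefF N f) (hg : DefF N g) (hk : DefF N k) (hl : DefF N l) :
    DefF N (fun a => nx (f a) (g a) (k a) (l a)) := by
  unfold nx; fun_prop

/-- the sequence of ordinals -/
noncomputable def Bs (κ S n : N) : N := memRec (fun n h => nx κ S n h) n

@[fun_prop]
theorem Bs_def {f g k : α → N} (hf : DefF N f) (hg : DefF N g) (hk : DefF N k) : DefF N (fun a => Bs (f a) (g a) (k a)) := by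
  unfold Bs; fun_prop

theorem Bs_eq (n : N) : Bs κ S n = nx κ S n (lam n (Bs κ S)) :=
  memRec_eq (G := fun n h => nx κ S n h) (by fun_prop) n

theorem pos_congr {h h' f : N} (H : ∀ n : N, n ∈ f → app h n = app h' n) : pos h f = pos h' f := by
  apply ext'
  intro p
  rw [mem_pos, mem_pos]
  constructor
  · rintro ⟨n, hn, rfl⟩; exact ⟨n, hn, by rw [H n hn]⟩
  · rintro ⟨n, hn, rfl⟩; exact ⟨n, hn, by rw [H n hn]⟩

variable (hκ : IsReg κ) (hω : om N ∈ κ) (hE : ∀ x : N, x ∈ E → IsFun x κ κ) (hS : WinS κ E x0 S)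

include hκ hω hE hS

/-- existence of the next ordinal -/
theorem nx_spec {n h : N} (hn : n ∈ om N) (hi : Inc κ h n) : nx κ S n h ∈ κ ∧ (∀ k : N, k ∈ n → app h k ∈ nx κ S n h) ∧
    ∀ k u : N, k ∈ n → MSub u k → ¬ Agree (rp S h u) (rp S h (cup u (sing k))) (nx κ S n h) := by
  have hκω : ¬ Le κ (om N) := hκ.init _ hω
  have hn' : ¬ Le κ n := hκ.init n (hκ.om_sub n hn)
  have hpn : ¬ Le κ (pow n) := fun h => hκω (h.trans (pow_nat_le hn))
  let d : N → N := fun z => leastO (fun δ => δ ∈ κ ∧ ¬ Agree (rp S h (snd z)) (rp S h (cup (snd z) (sing (fst z)))) δ)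
  have hd : DefF N d := by simp only [d]; fun_prop
  have hd' : ∀ k u : N, k ∈ n → MSub u k → d (opair k u) ∈ κ ∧
      ¬ Agree (rp S h u) (rp S h (cup u (sing k))) (d (opair k u)) := by
    intro k u hk hu
    have hkn : MSub k n := ord_sub (om_ord hn) hk
    have hcup : MSub (cup u (sing k)) n := by
      intro z hz
      rcases mem_cup.1 hz with h1 | h1
      · exact hkn z (hu z h1)
      · rw [mem_sing.1 h1]; exact hk
    have hi1 := hi.mono hcup
    have hi2 := hi.mono (fun z hz => hkn z (hu z hz) : MSub u n)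
    have hcap : capS (cup u (sing k)) k = u := by
      apply ext'
      intro z
      rw [mem_capS, mem_cup, mem_sing]
      constructor
      · rintro ⟨h1 | h1, h2⟩
        · exact h1
        · rw [h1] at h2; exact absurd h2 (mem_irrefl k)
      · intro h1; exact ⟨Or.inl h1, hu z h1⟩
    obtain ⟨h1, _, h3⟩ := rp_spec hS hi1
    obtain ⟨h4, _, _⟩ := rp_spec hS hi2
    have h5 := (h3 k (mem_cup.2 (Or.inr (mem_sing.2 rfl)))).1
    rw [hcap] at h5
    have h6 : ∃ ξ : N, ξ ∈ κ ∧ app (rp S h u) ξ ≠ app (rp S h (cup u (sing k))) ξ := by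
      by_contra hcon
      push Not at hcon
      exact h5 ((hE _ h4).ext (hE _ h1) hcon)
    obtain ⟨ξ, hξ, hne⟩ := h6
    have h7 : suc ξ ∈ κ := hκ.succ ξ hξ
    have h8 : ¬ Agree (rp S h u) (rp S h (cup u (sing k))) (suc ξ) := by
      rw [agree_iff (hE _ h4) (hE _ h1) (ord_sub hκ.ord h7)]
      intro h9
      exact hne (h9 ξ (mem_suc.2 (Or.inr rfl)))
    have h9 := leastO_spec (R := fun δ => δ ∈ κ ∧ ¬ Agree (rp S h u) (rp S h (cup u (sing k))) δ) (by fun_prop)
      (ord_mem hκ.ord h7) ⟨h7, h8⟩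
    have h10 : d (opair k u) = leastO (fun δ => δ ∈ κ ∧ ¬ Agree (rp S h u) (rp S h (cup u (sing k))) δ) := by
      simp only [d, fst_opair, snd_opair]
    rw [h10]
    exact h9.2.1
  let T : N := cup (repS (sepS (prodS n (pow n)) (fun z => MSub (snd z) (fst z))) d) (repS n (app h))
  have hT1 : MSub T κ := by
    intro z hz
    rcases mem_cup.1 hz with h1 | h1
    · obtain ⟨w, hw, rfl⟩ := (mem_repS hd).1 h1
      rw [mem_sepS (by fun_prop)] at hw
      obtain ⟨k, u, hk, hu, rfl⟩ := mem_prodS.1 hw.1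
      rw [fst_opair, snd_opair] at hw
      exact (hd' k u hk hw.2).1
    · obtain ⟨k, hk, rfl⟩ := (mem_repS (by fun_prop)).1 h1
      exact hi.mem k hk
  have hT2 : ¬ Le κ T := by
    apply hκ.cup
    · intro h1
      have h2 := h1.trans (le_repS hd)
      exact hκ.prod hn' hpn (h2.trans (Le.of_sub (fun z hz => ((mem_sepS (by fun_prop)).1 hz).1)))
    · intro h1
      exact hn' (h1.trans (le_repS (by fun_prop)))
  obtain ⟨b, hb, hb'⟩ := bdd_of_small hκ hT1 hT2
  have hbo := ord_mem hκ.ord hb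
  have hspec := leastO_spec (R := fun b => b ∈ κ ∧ (∀ k : N, k ∈ n → app h k ∈ b) ∧
    ∀ k u : N, k ∈ n → MSub u k → ¬ Agree (rp S h u) (rp S h (cup u (sing k))) b) (by fun_prop) hbo
    ⟨hb, fun k hk => hb' _ (mem_cup.2 (Or.inr ((mem_repS (by fun_prop)).2 ⟨k, hk, rfl⟩))), fun k u hk hu hag => by
      obtain ⟨h1, h2⟩ := hd' k u hk hu
      have h3 : d (opair k u) ∈ b := hb' _ (mem_cup.2 (Or.inl ((mem_repS hd).2 ⟨opair k u, (mem_sepS (by fun_prop)).2
        ⟨opair_mem_prodS.2 ⟨hk, mem_pow.2 (fun z hz => (om_ord hn).1 k z hk (hu z hz))⟩, by rw [fst_opair, snd_opair]; exact hu⟩, rfl⟩)))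
      exact h2 (hag.mono (ord_sub hbo h3))⟩
  exact hspec.2.1

/-- the sequence of ordinals is increasing and separates the replies -/
theorem Bs_spec {n : N} (hn : n ∈ om N) : Bs κ S n ∈ κ ∧ (∀ k : N, k ∈ n → Bs κ S k ∈ Bs κ S n) ∧
    ∀ k u : N, k ∈ n → MSub u k → ¬ Agree (rp S (lam (om N) (Bs κ S)) u) (rp S (lam (om N) (Bs κ S)) (cup u (sing k))) (Bs κ S n) := by
  have hstrong : ∀ n : N, n ∈ om N → (Bs κ S n ∈ κ ∧ (∀ k : N, k ∈ n → Bs κ S k ∈ Bs κ S n) ∧
      ∀ k u : N, k ∈ n → MSub u k → ¬ Agree (rp S (lam (om N) (Bs κ S)) u) (rp S (lam (om N) (Bs κ S)) (cup u (sing k))) (Bs κ S n)) := by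
    intro n
    refine mem_induction (R := fun n => n ∈ om N → (Bs κ S n ∈ κ ∧ (∀ k : N, k ∈ n → Bs κ S k ∈ Bs κ S n) ∧
      ∀ k u : N, k ∈ n → MSub u k → ¬ Agree (rp S (lam (om N) (Bs κ S)) u) (rp S (lam (om N) (Bs κ S)) (cup u (sing k))) (Bs κ S n)))
      (by fun_prop) ?_ n
    intro n ih hn
    have happ : ∀ k : N, k ∈ n → app (lam n (Bs κ S)) k = Bs κ S k := fun k hk => app_lam (by fun_prop) hk
    have hi : Inc κ (lam n (Bs κ S)) n := by
      refine ⟨fun z hz => om_tr hn hz, fun k hk => ?_, fun k l hk hl hkl => ?_⟩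
      · rw [happ k hk]; exact (ih k hk (om_tr hn hk)).1
      · rw [happ k hk, happ l hl]; exact (ih l hl (om_tr hn hl)).2.1 k hkl
    obtain ⟨h1, h2, h3⟩ := nx_spec hκ hω hE hS hn hi
    rw [← Bs_eq n] at h1 h2 h3
    refine ⟨h1, fun k hk => ?_, fun k u hk hu => ?_⟩
    · have := h2 k hk
      rwa [happ k hk] at this
    · have hkn : MSub k n := ord_sub (om_ord hn) hk
      have h4 : ∀ v : N, MSub v n → rp S (lam n (Bs κ S)) v = rp S (lam (om N) (Bs κ S)) v := by
        intro v hv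
        unfold rp
        rw [pos_congr (h := lam n (Bs κ S)) (h' := lam (om N) (Bs κ S)) (fun z hz => by
          rw [app_lam (by fun_prop) (hv z hz), app_lam (by fun_prop) (om_tr hn (hv z hz))])]
      have h5 := h3 k u hk hu
      rwa [h4 u (fun z hz => hkn z (hu z hz)), h4 (cup u (sing k)) (fun z hz => by
        rcases mem_cup.1 hz with h1 | h1
        · exact hkn z (hu z h1)
        · rw [mem_sing.1 h1]; exact hk)] at h5
  exact hstrong n hn

omit hE hS in
theorem inc_all (hB : ∀ n : N, n ∈ om N → (Bs κ S n ∈ κ ∧ ∀ k : N, k ∈ n → Bs κ S k ∈ Bs κ S n)) {f : N} (hf : MSub f (om N)) :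
    Inc κ (lam (om N) (Bs κ S)) f := by
  refine ⟨hf, fun n hn => ?_, fun k n hk hn hkn => ?_⟩
  · rw [app_lam (by fun_prop) (hf n hn)]; exact (hB n (hf n hn)).1
  · rw [app_lam (by fun_prop) (hf n hn), app_lam (by fun_prop) (hf k hk)]; exact (hB n (hf n hn)).2 k hkn

/-- a continuous injection of `2^ω` given by a strategy -/
theorem run : ∃ X B : N → N, DefF N X ∧ DefF N B ∧ (∀ n : N, n ∈ om N → (B n ∈ κ ∧ ∀ k : N, k ∈ n → B k ∈ B n)) ∧
    (∀ f : N, MSub f (om N) → X f ∈ E) ∧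
    ∀ f g n : N, MSub f (om N) → MSub g (om N) → n ∈ om N → (Agree (X f) (X g) (B n) ↔ ∀ k : N, k ∈ n → (k ∈ f ↔ k ∈ g)) := by
  have hB := fun n (hn : n ∈ om N) => Bs_spec hκ hω hE hS hn
  have hB' : ∀ n : N, n ∈ om N → (Bs κ S n ∈ κ ∧ ∀ k : N, k ∈ n → Bs κ S k ∈ Bs κ S n) := fun n hn => ⟨(hB n hn).1, (hB n hn).2.1⟩
  have hinc : ∀ f : N, MSub f (om N) → Inc κ (lam (om N) (Bs κ S)) f := fun f hf => inc_all hκ hω hB' hf
  have hBo : ∀ n : N, n ∈ om N → IsOrd (Bs κ S n) := fun n hn => ord_mem hκ.ord (hB n hn).1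
  have hBm : ∀ n m : N, n ∈ om N → m ∈ om N → (n = m ∨ n ∈ m) → MSub (Bs κ S n) (Bs κ S m) := by
    rintro n m hn hm (h | h)
    · rw [h]; exact fun _ h => h
    · exact ord_sub (hBo m hm) ((hB m hm).2.1 n h)
  let X : N → N := rp S (lam (om N) (Bs κ S))
  have hX : DefF N X := by simp only [X]; fun_prop
  -- agreement with the truncation
  have h1 : ∀ f n : N, MSub f (om N) → n ∈ om N → Agree (X f) (X (capS f n)) (Bs κ S n) := by
    intro f n hf hn
    by_cases h : ∃ k : N, k ∈ f ∧ ¬ k ∈ n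
    · obtain ⟨k, hk, hkn⟩ := h
      obtain ⟨k0, _, ⟨hk0, hk0n⟩, hmin, _⟩ := ord_least (R := fun k => k ∈ f ∧ ¬ k ∈ n) (by fun_prop) (om_ord (hf k hk)) ⟨hk, hkn⟩
      have hcap : capS f k0 = capS f n := by
        apply ext'
        intro z
        rw [mem_capS, mem_capS]
        constructor
        · rintro ⟨h2, h3⟩
          refine ⟨h2, ?_⟩
          by_contra h4
          exact hmin z h3 ⟨h2, h4⟩
        · rintro ⟨h2, h3⟩
          refine ⟨h2, ?_⟩
          rcases ord_trich k0 n (om_ord (hf k0 hk0)) (om_ord hn) with h4 | h4 | h4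
          · exact absurd h4 hk0n
          · rw [h4]; exact h3
          · exact (om_ord (hf k0 hk0)).1 n z h4 h3
      obtain ⟨_, _, h2⟩ := rp_spec hS (hinc f hf)
      have h3 := (h2 k0 hk0).2
      rw [hcap, app_lam (by fun_prop) (hf k0 hk0)] at h3
      refine h3.mono (hBm n k0 hn (hf k0 hk0) ?_)
      rcases ord_trich k0 n (om_ord (hf k0 hk0)) (om_ord hn) with h4 | h4 | h4
      · exact absurd h4 hk0n
      · exact Or.inl h4.symm
      · exact Or.inr h4
    · push Not at h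
      have : capS f n = f := by
        apply ext'
        intro z
        rw [mem_capS]
        exact ⟨fun h2 => h2.1, fun h2 => ⟨h2, h z h2⟩⟩
      rw [this]
      exact Agree.refl _ _
  -- separation
  have h2 : ∀ f g i : N, MSub f (om N) → MSub g (om N) → i ∈ om N → (∀ k : N, k ∈ i → (k ∈ f ↔ k ∈ g)) → i ∈ f → ¬ i ∈ g →
      ¬ Agree (X f) (X g) (Bs κ S (suc i)) := by
    intro f g i hf hg hi hfg hif hig hag
    have hsi := suc_mem_om hi
    have h3 := h1 f _ hf hsi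
    have h4 := h1 g _ hg hsi
    have hg' : capS g (suc i) = capS g i := by
      apply ext'
      intro z
      rw [mem_capS, mem_capS, mem_suc]
      constructor
      · rintro ⟨h5, h6 | h6⟩
        · exact ⟨h5, h6⟩
        · rw [h6] at h5; exact absurd h5 hig
      · exact fun h5 => ⟨h5.1, Or.inl h5.2⟩
    have hf' : capS f (suc i) = cup (capS g i) (sing i) := by
      apply ext'
      intro z
      rw [mem_capS, mem_cup, mem_capS, mem_sing, mem_suc]
      constructor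
      · rintro ⟨h5, h6 | h6⟩
        · exact Or.inl ⟨(hfg z h6).1 h5, h6⟩
        · exact Or.inr h6
      · rintro (h5 | h5)
        · exact ⟨(hfg z h5.2).2 h5.1, Or.inl h5.2⟩
        · rw [h5]; exact ⟨hif, Or.inr rfl⟩
    rw [hf'] at h3
    rw [hg'] at h4
    exact (hB (suc i) hsi).2.2 i (capS g i) (mem_suc.2 (Or.inr rfl)) (fun z hz => (mem_capS.1 hz).2)
      (h4.symm.trans (hag.symm.trans h3))
  refine ⟨X, Bs κ S, hX, by fun_prop, hB', fun f hf => (rp_spec hS (hinc f hf)).1, ?_⟩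
  intro f g n hf hg hn
  constructor
  · intro hag
    by_contra hcon
    push Not at hcon
    obtain ⟨k, hk, hkk⟩ := hcon
    obtain ⟨i, _, ⟨hin, hi⟩, hmin, _⟩ := ord_least (R := fun k => k ∈ n ∧ ¬ (k ∈ f ↔ k ∈ g)) (by fun_prop) (om_ord (om_tr hn hk))
      ⟨hk, by tauto⟩
    have hiω := om_tr hn hin
    have hag' : Agree (X f) (X g) (Bs κ S (suc i)) := by
      apply hag.mono
      apply hBm _ _ (suc_mem_om hiω) hn
      rcases ord_trich (suc i) n (om_ord (suc_mem_om hiω)) (om_ord hn) with h4 | h4 | h4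
      · exact Or.inr h4
      · exact Or.inl h4
      · rcases mem_suc.1 h4 with h5 | h5
        · exact absurd h5 (mem_asymm hin)
        · rw [h5] at hin; exact absurd hin (mem_irrefl _)
    have heq : ∀ k : N, k ∈ i → (k ∈ f ↔ k ∈ g) := by
      intro k hk
      by_contra h5
      exact hmin k hk ⟨(om_ord hn).1 i k hin hk, h5⟩
    by_cases hif : i ∈ f
    · have hig : ¬ i ∈ g := fun h => hi ⟨fun _ => h, fun _ => hif⟩
      exact h2 f g i hf hg hiω heq hif hig hag'
    · have hig : i ∈ g := by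
        by_contra h
        exact hi ⟨fun h' => absurd h' hif, fun h' => absurd h' h⟩
      exact h2 g f i hg hf hiω (fun k hk => (heq k hk).symm) hig hif hag'.symm
  · intro h
    have : capS f n = capS g n := by
      apply ext'
      intro z
      rw [mem_capS, mem_capS]
      exact ⟨fun h3 => ⟨(h z h3.2).1 h3.1, h3.2⟩, fun h3 => ⟨(h z h3.2).2 h3.1, h3.2⟩⟩
    have h3 := h1 f n hf hn
    rw [this] at h3
    exact h3.trans (h1 g n hg hn).symm

end

end Pool.Agent.Helper79.Game
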